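import Pool.Agent.Work.MP_70e905_nt.Alt.Core
import Pool.Agent.Work.MP_70e905_nt.Pol.Final

/-!
# Alt.Density : `CluP 1 L P` gives density one among the even numbers of every long interval
-/

set_option autoImplicit false

namespace PoolAlt

open Finset PoolQ4 PoolPol

theorem primorial_two : primorial 2 = 2 := by
  decide +kernel

theorem wq_two_le (h : ℕ) : wq 2 h ≤ 1 := by
  rw [← wq_mod 2 h]
  have : h % 2 < 2 := Nat.mod_lt _ (by norm_num)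
  interval_cases h % 2 <;> decide +kernel

theorem wq_two_even (h : ℕ) (hh : h % 2 = 0) : wq 2 h = 1 := by
  rw [← wq_mod 2 h, hh]
  decide +kernel

theorem card_even_ge (X ℓ : ℕ) : ((ℓ : ℝ) - 1) / 2 ≤ ∑ h ∈ Ioc X (X + ℓ), (wq 2 h : ℝ) := by
  have h1 : ((Ioc X (X + 2 * (ℓ / 2))).filter fun x => x ≡ 0 [MOD 2]).card = ℓ / 2 :=
    card_class 2 (ℓ / 2) X 0 (by norm_num)
  have h2 : ((ℓ / 2 : ℕ) : ℝ) ≤ ∑ h ∈ Ioc X (X + ℓ), (wq 2 h : ℝ) := by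
    calc ((ℓ / 2 : ℕ) : ℝ) = ∑ h ∈ (Ioc X (X + 2 * (ℓ / 2))).filter fun x => x ≡ 0 [MOD 2],
          (wq 2 h : ℝ) := by
          rw [Finset.sum_congr rfl (g := fun _ => (1 : ℝ))]
          · rw [Finset.sum_const, nsmul_eq_mul, mul_one, h1]
          · intro h hh
            have := (mem_filter.1 hh).2
            rw [wq_two_even h this]
            norm_num
      _ ≤ ∑ h ∈ Ioc X (X + ℓ), (wq 2 h : ℝ) := by
          refine Finset.sum_le_sum_of_subset_of_nonneg ?_ (fun _ _ _ => Nat.cast_nonneg _)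
          intro h hh
          have := (mem_filter.1 hh).1
          rw [mem_Ioc] at this ⊢
          omega
  refine le_trans ?_ h2
  have h3 : ℓ ≤ 2 * (ℓ / 2) + 1 := by omega
  have h4 : (ℓ : ℝ) ≤ 2 * ((ℓ / 2 : ℕ) : ℝ) + 1 := by exact_mod_cast h3
  linarith

theorem density_one (L : ℕ) (P : ℕ → Prop) [DecidablePred P] (hP : CluP 1 L P) (ε : ℝ)
    (hε : 0 < ε) : ∃ ℓ₀ : ℕ, ∀ X ℓ : ℕ, ℓ₀ ≤ ℓ →
      (1 / 2 - ε) * (ℓ : ℝ) ≤ (((Ioc X (X + ℓ)).filter P).card : ℝ) := by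
  obtain ⟨ℓ₁, hℓ₁⟩ := weighted 1 L le_rfl P hP 2 (by norm_num) (min ε 1)
    (lt_min hε (by norm_num))
  rw [primorial_two] at hℓ₁
  obtain ⟨ℓ₂, hℓ₂⟩ := exists_nat_gt (1 / ε)
  refine ⟨max ℓ₁ ℓ₂, fun X ℓ hℓ => ?_⟩
  have hℓr : 1 ≤ ε * ℓ := by
    have h1 : 1 / ε < ℓ := hℓ₂.trans_le (by exact_mod_cast le_trans (le_max_right _ _) hℓ)
    rw [div_lt_iff₀ hε] at h1
    linarith
  have h1 := hℓ₁ X ℓ (le_trans (le_max_left _ _) hℓ)
  have h2 : ∑ h ∈ (Ioc X (X + ℓ)).filter P, (wq 2 h : ℝ) ≤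
      (((Ioc X (X + ℓ)).filter P).card : ℝ) := by
    calc ∑ h ∈ (Ioc X (X + ℓ)).filter P, (wq 2 h : ℝ)
        ≤ ∑ h ∈ (Ioc X (X + ℓ)).filter P, (1 : ℝ) :=
          Finset.sum_le_sum fun h _ => by exact_mod_cast wq_two_le h
      _ = _ := by rw [Finset.sum_const, nsmul_eq_mul, mul_one]
  have h3 := card_even_ge X ℓ
  have hδ1 : min ε 1 ≤ ε := min_le_left _ _
  have hδ2 : min ε 1 ≤ 1 := min_le_right _ _
  have h4 : (1 - min ε 1) * (((ℓ : ℝ) - 1) / 2) ≤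
      (1 - min ε 1) * ∑ h ∈ Ioc X (X + ℓ), (wq 2 h : ℝ) :=
    mul_le_mul_of_nonneg_left h3 (by linarith)
  have h5 : (1 / ((1 : ℕ) : ℝ) - min ε 1) = 1 - min ε 1 := by norm_num
  rw [h5] at h1
  have hℓ0 : (0 : ℝ) ≤ ℓ := Nat.cast_nonneg _
  have h6 : min ε 1 * ℓ ≤ ε * ℓ := mul_le_mul_of_nonneg_right hδ1 hℓ0
  have h7 : 0 ≤ min ε 1 := (lt_min hε (by norm_num)).le
  nlinarith

/-- The alternative theorem from the cluster lemma with four clusters. -/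
theorem alternative (H : ClusterPlus 3) :
    (∀ ε : ℝ, 0 < ε → ∃ ℓ₀ : ℕ, ∀ X ℓ : ℕ, ℓ₀ ≤ ℓ →
      (1 / 2 - ε) * (ℓ : ℝ) ≤
        (({h : ℕ | X < h ∧ h ≤ X + ℓ ∧
          {n : ℕ | Nat.nth Nat.Prime (n + 1) = Nat.nth Nat.Prime n + h}.Infinite}.ncard : ℕ) : ℝ)) ∨
    NearPairs := by
  classical
  rcases alternative_core H with ⟨L, -, hL⟩ | h
  · left
    intro ε hε
    have hL' : CluP 1 L Polignac := by
      intro g hg hadm
      obtain ⟨s, t, hst, hP⟩ := hL g hg hadm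
      exact ⟨s, t, hst, (pol_iff _).1 hP⟩
    obtain ⟨ℓ₀, h⟩ := density_one L Polignac hL' ε hε
    refine ⟨ℓ₀, fun X ℓ hℓ => ?_⟩
    have h1 : {h : ℕ | X < h ∧ h ≤ X + ℓ ∧
        {n : ℕ | Nat.nth Nat.Prime (n + 1) = Nat.nth Nat.Prime n + h}.Infinite} =
        (((Finset.Ioc X (X + ℓ)).filter Polignac : Finset ℕ) : Set ℕ) := by
      ext k
      rw [Finset.mem_coe, Finset.mem_filter, Finset.mem_Ioc]
      constructor
      · rintro ⟨h2, h3, h4⟩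
        exact ⟨⟨h2, h3⟩, h4⟩
      · rintro ⟨⟨h2, h3⟩, h4⟩
        exact ⟨h2, h3, h4⟩
    rw [h1, Set.ncard_coe_finset]
    exact h X ℓ hℓ
  · exact Or.inr h

end PoolAlt
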