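import Pool.Agent.Work.MP_70e905_nt.Alt.Pairs
import Pool.Agent.Work.MP_70e905_nt.Alt.Density
import Pool.Agent.Work.MP_70e905_nt.CL3.All3

/-!
# Alt.AltPairs : the alternative theorem with a power saving
-/

namespace PoolAlt

open Finset PoolQ4 PoolPol

theorem alternative_pairs (H : ClusterPlus 3) :
    (∃ C δ : ℝ, 0 < C ∧ 0 < δ ∧
      (∀ S : Finset ℕ, (∀ s ∈ S, Even s) →
        (({q : ℕ × ℕ | q.1 ∈ S ∧ q.2 ∈ S ∧ q.1 < q.2 ∧ ¬ {n : ℕ | Nat.nth Nat.Prime (n + 1) =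
          Nat.nth Nat.Prime n + (q.2 - q.1)}.Infinite}.ncard : ℕ) : ℝ) ≤
            C * (S.card : ℝ) ^ (2 - δ)) ∧
      (∀ r d X : ℕ, Even r → Even d → 0 < r → 0 < d →
        (({j : ℕ | j < X ∧ ¬ {n : ℕ | Nat.nth Nat.Prime (n + 1) =
          Nat.nth Nat.Prime n + (r + j * d)}.Infinite}.ncard : ℕ) : ℝ) ≤ C * (X : ℝ) ^ (1 - δ))) ∨
    NearPairs := by
  classical
  rcases alternative_core H with ⟨L, -, hL⟩ | h
  · left
    have hL' : CluP 1 L Polignac := by
      intro g hg hadm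
      obtain ⟨s, t, hst, hP⟩ := hL g hg hadm
      exact ⟨s, t, hst, (pol_iff _).1 hP⟩
    obtain ⟨C, δ, hC, hδ0, hδ1, h⟩ := pairs L Polignac hL'
    refine ⟨9 * C, δ, by positivity, hδ0, fun S hS => ?_, fun r d X hr hd hr0 hd0 => ?_⟩
    · refine (le_trans ?_ (h S hS)).trans ?_
      · have : {q : ℕ × ℕ | q.1 ∈ S ∧ q.2 ∈ S ∧ q.1 < q.2 ∧ ¬ {n : ℕ | Nat.nth Nat.Prime (n + 1) =
            Nat.nth Nat.Prime n + (q.2 - q.1)}.Infinite} =
            (((S ×ˢ S).filter (fun p => p.1 < p.2 ∧ ¬ Polignac (p.2 - p.1)) : Finset (ℕ × ℕ)) :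
              Set (ℕ × ℕ)) := by
          ext q
          rw [Finset.mem_coe, mem_filter, mem_product]
          constructor
          · rintro ⟨h1, h2, h3, h4⟩
            exact ⟨⟨h1, h2⟩, h3, h4⟩
          · rintro ⟨⟨h1, h2⟩, h3, h4⟩
            exact ⟨h1, h2, h3, h4⟩
        rw [this, Set.ncard_coe_finset]
      · have h1 : 0 ≤ C * (#S : ℝ) ^ (2 - δ) := by positivity
        linarith
    · refine le_trans ?_ (progressions Polignac C δ hC hδ0 hδ1 h r d X hr hd hr0 hd0)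
      have : {j : ℕ | j < X ∧ ¬ {n : ℕ | Nat.nth Nat.Prime (n + 1) =
          Nat.nth Nat.Prime n + (r + j * d)}.Infinite} =
          (((Finset.range X).filter (fun j => ¬ Polignac (r + j * d)) : Finset ℕ) : Set ℕ) := by
        ext j
        rw [Finset.mem_coe, mem_filter, mem_range]
        rfl
      rw [this, Set.ncard_coe_finset]
  · exact Or.inr h

end PoolAlt
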