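import Pool.Agent.Work.MP_70e905_nt.Alt.Density
import Pool.Agent.Work.MP_70e905_nt.CL3.All3

/-!
# The alternative theorem

Either almost all even numbers of every long interval are Polignac numbers, or any two linear forms
have simultaneous prime values up to a bounded error, at every scale.
-/

set_option autoImplicit false

namespace Pool.Agent.Work.MP_70e905_nt.Alt.Alternative

/-- At least one of the following two statements is true.

(P) For every `ε > 0` every sufficiently long interval `(X, X + ℓ]` contains at least `(1/2 - ε) ℓ`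
integers `h` with `p (n + 1) - p n = h` for infinitely many `n` (`p n` the sequence of the primes).

(L) For every `A` there is `C` such that for all `x ≥ 1`, `1 ≤ a, a' ≤ A` and `0 ≤ b, b' ≤ A x`
there are `x < z ≤ 2x` and `0 ≤ c, c' ≤ C` with `a z + b + c` and `a' z + b' + c'` both prime. In
particular (`a = a' = 1`, `b = 0`, `b' = n`) every `n ≤ x` differs by at most `C` from `p - q` with
primes `x < q < 2 x + C`, `x < p`. -/
theorem result :
    (∀ ε : ℝ, 0 < ε → ∃ ℓ₀ : ℕ, ∀ X ℓ : ℕ, ℓ₀ ≤ ℓ →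
      (1 / 2 - ε) * (ℓ : ℝ) ≤
        (({h : ℕ | X < h ∧ h ≤ X + ℓ ∧
          {n : ℕ | Nat.nth Nat.Prime (n + 1) = Nat.nth Nat.Prime n + h}.Infinite}.ncard : ℕ) : ℝ)) ∨
    (∀ A : ℕ, ∃ C : ℕ, ∀ x a a' b b' : ℕ, 1 ≤ x → 1 ≤ a → a ≤ A → 1 ≤ a' → a' ≤ A →
      b ≤ A * x → b' ≤ A * x →
        ∃ z c c' : ℕ, x < z ∧ z ≤ 2 * x ∧ c ≤ C ∧ c' ≤ C ∧
          (a * z + b + c).Prime ∧ (a' * z + b' + c').Prime) :=
  PoolAlt.alternative PoolCL.clusterPlus_three

end Pool.Agent.Work.MP_70e905_nt.Alt.Alternative
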