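import Pool.Agent.Work.MP_70e905_nt.Alt.Setup
import Pool.Agent.Work.MP_70e905_nt.Pol.Main
import Pool.Agent.Work.MP_70e905_nt.Pol.Cor

/-!
# Alt.Core : the alternative theorem, from the cluster lemma with four clusters

Two clusters `A, B` near the first form, the same two clusters near the second form. If no
difference between `A` and `B` is a Polignac number, then a prime of `a z + b + (A ∪ B)` and a prime
of `a' z + b' + (A ∪ B)` (up to bounded shifts) occur for the same `z`.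
-/

set_option autoImplicit false

namespace PoolAlt

open Finset PoolQ4 PoolPol

/-- Two linear forms have simultaneous prime values up to a bounded error, at every scale. -/
def NearPairs : Prop :=
  ∀ A : ℕ, ∃ C : ℕ, ∀ x a a' b b' : ℕ, 1 ≤ x → 1 ≤ a → a ≤ A → 1 ≤ a' → a' ≤ A →
    b ≤ A * x → b' ≤ A * x →
      ∃ z c c' : ℕ, x < z ∧ z ≤ 2 * x ∧ c ≤ C ∧ c' ≤ C ∧
        (a * z + b + c).Prime ∧ (a' * z + b' + c').Prime

theorem small_case {X₁ A x a a' b b' : ℕ} (hx : 1 ≤ x) (hxX : x ≤ X₁) (ha : 1 ≤ a) (haA : a ≤ A)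
    (ha' : 1 ≤ a') (haA' : a' ≤ A) (hb : b ≤ A * x) (hb' : b' ≤ A * x) :
    ∃ z c c' : ℕ, x < z ∧ z ≤ 2 * x ∧ c ≤ 3 * A * X₁ ∧ c' ≤ 3 * A * X₁ ∧
        (a * z + b + c).Prime ∧ (a' * z + b' + c').Prime := by
  have key : ∀ a b : ℕ, 1 ≤ a → a ≤ A → b ≤ A * x → ∃ c, c ≤ 3 * A * X₁ ∧
      (a * (2 * x) + b + c).Prime := by
    intro a b ha haA hb
    have h0 : a * (2 * x) + b ≠ 0 := by positivity
    obtain ⟨p, hp, h1, h2⟩ := Nat.exists_prime_lt_and_le_two_mul (a * (2 * x) + b) h0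
    refine ⟨p - (a * (2 * x) + b), ?_, ?_⟩
    · have h3 : a * (2 * x) + b ≤ 3 * A * X₁ := by
        calc a * (2 * x) + b ≤ A * (2 * x) + A * x := by gcongr
          _ = 3 * A * x := by ring
          _ ≤ 3 * A * X₁ := by gcongr
      omega
    · rw [show a * (2 * x) + b + (p - (a * (2 * x) + b)) = p by omega]
      exact hp
  obtain ⟨c, hc, hcp⟩ := key a b ha haA hb
  obtain ⟨c', hc', hcp'⟩ := key a' b' ha' haA' hb'
  exact ⟨2 * x, c, c', by omega, le_rfl, hc, hc', hcp, hcp'⟩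

theorem exists_base {W : ℕ} (hW : 0 < W) (v b : ℕ) : ∃ s : ℕ, s < W ∧ b + s ≡ v [MOD W] := by
  refine ⟨(v + (W - 1) * b) % W, Nat.mod_lt _ hW, ?_⟩
  have h1 : b + (v + (W - 1) * b) % W ≡ b + (v + (W - 1) * b) [MOD W] :=
    (Nat.mod_modEq _ _).add_left _
  refine h1.trans ?_
  have h2 : b + (v + (W - 1) * b) = v + W * b := by
    obtain ⟨w, rfl⟩ : ∃ w, W = w + 1 := ⟨W - 1, by omega⟩
    simp only [Nat.add_sub_cancel]
    ring
  rw [h2]
  unfold Nat.ModEq
  rw [Nat.add_mul_mod_self_left]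

/-- index of the form: `0` for the first two clusters, `1` for the other two -/
def fo (k : Fin 4) : ℕ := if (k : ℕ) < 2 then 0 else 1

/-- index of the cluster inside the form -/
def ci (k : Fin 4) : Fin 2 := if (k : ℕ) = 0 ∨ (k : ℕ) = 2 then 0 else 1

theorem ci_ne {k l : Fin 4} (h : k ≠ l) (hf : fo k = fo l) : ci k ≠ ci l := by
  revert k l
  decide

theorem index_inj {k l : Fin 4} (hf : fo k = fo l) (hc : ci k = ci l) : k = l := by
  by_contra h
  exact ci_ne h hf hc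

theorem fo_lt (k : Fin 4) : fo k = 0 ∨ fo k = 1 := by
  revert k
  decide

theorem nearPairs_of_not (H : ClusterPlus 3) {L D₁ : ℕ}
    (HC : ∀ W A₀ C : ℕ, 0 < W → primorial D₁ ∣ W → ∃ X₀ : ℕ,
    ∀ (x v : ℕ) (a b : Fin (3 + 1) × Fin L → ℕ), X₀ ≤ x →
      (∀ i, 1 ≤ a i ∧ a i ≤ A₀) → (∀ i, ∀ p : ℕ, p.Prime → p ∣ a i → p ∣ W) →
      (∀ i, b i ≤ C * x) → (∀ i, (a i * v + b i).Coprime W) →
      (∀ i j, i ≠ j → a i * b j ≠ a j * b i) →
      ∃ z, x < z ∧ z ≤ 2 * x ∧ z ≡ v [MOD W] ∧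
        ∃ i j, i.1 ≠ j.1 ∧ (a i * z + b i).Prime ∧ (a j * z + b j).Prime)
    (h : Fin 2 × Fin L → ℕ) (hinj : Function.Injective h)
    (hadm : Admissible (Finset.univ.image h))
    (hno : ∀ s t : Fin 2 × Fin L, s.1 < t.1 → ¬ Pol (Nat.dist (h s) (h t))) : NearPairs := by
  classical
  intro A
  obtain ⟨W, v, B, M, hW, hDW, hhM, hcop, honly⟩ := w_setup h hadm (max D₁ A)
  have hD₁W : primorial D₁ ∣ W := by
    refine dvd_trans ?_ hDW
    unfold primorial
    exact Finset.prod_dvd_prod_of_subset _ _ _ (fun p hp => by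
      rw [mem_filter, mem_range] at hp ⊢
      exact ⟨lt_of_lt_of_le hp.1 (by have := le_max_left D₁ A; omega), hp.2⟩)
  have hAW : ∀ p : ℕ, p.Prime → p ≤ A → p ∣ W := by
    intro p hp hpA
    refine dvd_trans ?_ hDW
    unfold primorial
    exact Finset.dvd_prod_of_mem (fun p => p) (mem_filter.2 ⟨mem_range.2 (by
      have := le_max_right D₁ A
      omega), hp⟩)
  obtain ⟨N, hN⟩ := not_pol_bound h hno
  obtain ⟨T, hT⟩ : ∃ T, T = Fintype.card (Fin 2 × Fin L) ^ 2 := ⟨_, rfl⟩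
  obtain ⟨X₀, hX⟩ := HC W A (A + W + W * T + M) hW hD₁W
  obtain ⟨X₁, hX₁⟩ : ∃ X₁, X₁ = X₀ + B + N := ⟨_, rfl⟩
  refine ⟨W + W * T + M + 3 * A * X₁, ?_⟩
  intro x a a' b b' hx ha haA ha' haA' hb hb'
  rcases Nat.lt_or_ge X₁ x with hxX | hxX
  swap
  · obtain ⟨z, c, c', h1, h2, h3, h4, h5, h6⟩ := small_case hx hxX ha haA ha' haA' hb hb'
    exact ⟨z, c, c', h1, h2, by omega, by omega, h5, h6⟩
  obtain ⟨s₁, hs₁, hs₁v⟩ := exists_base hW v b
  obtain ⟨s₂, hs₂, hs₂v⟩ := exists_base hW v b'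
  obtain ⟨t, ht, htne⟩ := exists_shift h W a a' (b + s₁) (b' + s₂) hW ha
  rw [← hT] at ht
  have hWt : W * t ≤ W * T := Nat.mul_le_mul_left _ ht
  -- the forms
  obtain ⟨aa, haa⟩ : ∃ aa : Fin (3 + 1) × Fin L → ℕ,
    aa = fun i => if fo i.1 = 0 then a else a' := ⟨_, rfl⟩
  obtain ⟨BB, hBB⟩ : ∃ BB : Fin (3 + 1) → ℕ,
    BB = fun k => if fo k = 0 then b + s₁ else b' + s₂ + W * t := ⟨_, rfl⟩
  obtain ⟨bb, hbb⟩ : ∃ bb : Fin (3 + 1) × Fin L → ℕ,
    bb = fun i => BB i.1 + h (ci i.1, i.2) := ⟨_, rfl⟩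
  have haa1 : ∀ i, 1 ≤ aa i ∧ aa i ≤ A := by
    intro i
    rw [haa]
    show 1 ≤ (if fo i.1 = 0 then a else a') ∧ (if fo i.1 = 0 then a else a') ≤ A
    split_ifs
    · exact ⟨ha, haA⟩
    · exact ⟨ha', haA'⟩
  have hBBv : ∀ k, BB k ≡ v [MOD W] := by
    intro k
    rw [hBB]
    show (if fo k = 0 then b + s₁ else b' + s₂ + W * t) ≡ v [MOD W]
    split_ifs
    · exact hs₁v
    · refine Nat.ModEq.trans ?_ hs₂v
      unfold Nat.ModEq
      rw [Nat.add_mul_mod_self_left]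
  have hx1 : ∀ m : ℕ, m ≤ m * x := fun m => Nat.le_mul_of_pos_right m hx
  have hbbC : ∀ i, bb i ≤ (A + W + W * T + M) * x := by
    intro i
    rw [hbb]
    show BB i.1 + h (ci i.1, i.2) ≤ _
    have h1 := hhM (ci i.1, i.2)
    have h2 : BB i.1 ≤ A * x + W + W * T := by
      rw [hBB]
      show (if fo i.1 = 0 then b + s₁ else b' + s₂ + W * t) ≤ _
      split_ifs <;> omega
    have h3 := hx1 W
    have h4 := hx1 (W * T)
    have h5 := hx1 M
    calc BB i.1 + h (ci i.1, i.2) ≤ A * x + W + W * T + M := by omega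
      _ ≤ A * x + W * x + W * T * x + M * x := by omega
      _ = (A + W + W * T + M) * x := by ring
  have hbbcop : ∀ i, (aa i * 0 + bb i).Coprime W := by
    intro i
    rw [hbb]
    show (aa i * 0 + (BB i.1 + h (ci i.1, i.2))).Coprime W
    rw [mul_zero, zero_add]
    have h1 : BB i.1 + h (ci i.1, i.2) ≡ v + h (ci i.1, i.2) [MOD W] := (hBBv _).add_right _
    rw [Nat.Coprime, h1.gcd_eq]
    exact hcop _
  have hdif : ∀ i j, i ≠ j → aa i * bb j ≠ aa j * bb i := by
    have hsame : ∀ i j : Fin (3 + 1) × Fin L, i ≠ j → fo i.1 = fo j.1 →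
        aa i * bb j ≠ aa j * bb i := by
      intro i j hij hf heq
      have h1 : aa i = aa j := by rw [haa]; show (if fo i.1 = 0 then a else a') = _; rw [hf]
      have h2 : BB i.1 = BB j.1 := by
        rw [hBB]
        show (if fo i.1 = 0 then b + s₁ else b' + s₂ + W * t) = _
        rw [hf]
      rw [h1] at heq
      have h3 := Nat.eq_of_mul_eq_mul_left (haa1 j).1 heq
      rw [hbb] at h3
      have h4 : BB j.1 + h (ci j.1, j.2) = BB i.1 + h (ci i.1, i.2) := h3
      rw [h2] at h4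
      have h5 := hinj (Nat.add_left_cancel h4)
      have h6 : ci j.1 = ci i.1 := (Prod.ext_iff.1 h5).1
      have h7 : j.2 = i.2 := (Prod.ext_iff.1 h5).2
      exact hij (Prod.ext (index_inj hf h6.symm) h7.symm)
    have hcross : ∀ i j : Fin (3 + 1) × Fin L, fo i.1 = 0 → fo j.1 = 1 →
        aa i * bb j ≠ aa j * bb i := by
      intro i j hi hj heq
      have h1 : aa i = a := by rw [haa]; exact if_pos hi
      have h2 : aa j = a' := by rw [haa]; exact if_neg (by omega)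
      have h3 : bb i = b + s₁ + h (ci i.1, i.2) := by
        rw [hbb, hBB]
        show (if fo i.1 = 0 then b + s₁ else b' + s₂ + W * t) + _ = _
        rw [if_pos hi]
      have h4 : bb j = b' + s₂ + W * t + h (ci j.1, j.2) := by
        rw [hbb, hBB]
        show (if fo j.1 = 0 then b + s₁ else b' + s₂ + W * t) + _ = _
        rw [if_neg (by omega)]
      rw [h1, h2, h3, h4] at heq
      exact htne _ _ heq
    intro i j hij
    rcases fo_lt i.1 with hi | hi <;> rcases fo_lt j.1 with hj | hj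
    · exact hsame i j hij (by omega)
    · exact hcross i j hi hj
    · exact fun heq => hcross j i hj hi heq.symm
    · exact hsame i j hij (by omega)
  obtain ⟨z, hz1, hz2, hzv, i, j, hij, hpi, hpj⟩ := hX x 0 aa bb (by omega) haa1
    (fun i p hp hd => hAW p hp ((Nat.le_of_dvd (haa1 i).1 hd).trans (haa1 i).2))
    hbbC hbbcop hdif
  -- values
  have hval : ∀ i : Fin (3 + 1) × Fin L,
      aa i * z + bb i = (aa i * z + BB i.1) + h (ci i.1, i.2) := by
    intro i
    rw [hbb]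
    ring
  have hsmallc : ∀ k, BB k ≤ (if fo k = 0 then b else b') + (W + W * T) ∧
      (if fo k = 0 then b else b') ≤ BB k := by
    intro k
    rw [hBB]
    show (if fo k = 0 then b + s₁ else b' + s₂ + W * t) ≤ _ ∧ _ ≤
      (if fo k = 0 then b + s₁ else b' + s₂ + W * t)
    split_ifs <;> omega
  have hcase : ∀ i j : Fin (3 + 1) × Fin L, fo i.1 = 0 → fo j.1 = 1 →
      (aa i * z + bb i).Prime → (aa j * z + bb j).Prime →
      ∃ z c c' : ℕ, x < z ∧ z ≤ 2 * x ∧ c ≤ W + W * T + M + 3 * A * X₁ ∧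
        c' ≤ W + W * T + M + 3 * A * X₁ ∧ (a * z + b + c).Prime ∧ (a' * z + b' + c').Prime := by
    intro i j hi hj hpi hpj
    have h1 : aa i = a := by rw [haa]; exact if_pos hi
    have h2 : aa j = a' := by rw [haa]; exact if_neg (by omega)
    obtain ⟨h3, h4⟩ := hsmallc i.1
    obtain ⟨h5, h6⟩ := hsmallc j.1
    rw [if_pos hi] at h3 h4
    rw [if_neg (by omega)] at h5 h6
    have h7 := hhM (ci i.1, i.2)
    have h8 := hhM (ci j.1, j.2)
    refine ⟨z, BB i.1 - b + h (ci i.1, i.2), BB j.1 - b' + h (ci j.1, j.2), hz1, hz2,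
      by omega, by omega, ?_, ?_⟩
    · rw [hval, h1] at hpi
      rw [show a * z + b + (BB i.1 - b + h (ci i.1, i.2)) =
        a * z + BB i.1 + h (ci i.1, i.2) by omega]
      exact hpi
    · rw [hval, h2] at hpj
      rw [show a' * z + b' + (BB j.1 - b' + h (ci j.1, j.2)) =
        a' * z + BB j.1 + h (ci j.1, j.2) by omega]
      exact hpj
  -- the case of one form
  have hone : ∀ i j : Fin (3 + 1) × Fin L, i.1 ≠ j.1 → fo i.1 = fo j.1 →
      (aa i * z + bb i).Prime → (aa j * z + bb j).Prime → False := by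
    intro i j hij hf hpi hpj
    have h1 : aa i = aa j := by rw [haa]; show (if fo i.1 = 0 then a else a') = _; rw [hf]
    have h2 : BB i.1 = BB j.1 := by
      rw [hBB]
      show (if fo i.1 = 0 then b + s₁ else b' + s₂ + W * t) = _
      rw [hf]
    obtain ⟨y, hy⟩ : ∃ y, y = aa i * z + BB i.1 := ⟨_, rfl⟩
    rw [hval, ← hy] at hpi
    rw [hval, ← h1, ← h2, ← hy] at hpj
    have hxy : x < y := by
      have h3 : z ≤ aa i * z := Nat.le_mul_of_pos_left z (haa1 i).1
      omega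
    have hyv : y ≡ v [MOD W] := by
      rw [hy]
      have h3 : aa i * z + BB i.1 ≡ aa i * 0 + v [MOD W] := (hzv.mul_left _).add (hBBv _)
      rwa [mul_zero, zero_add] at h3
    obtain ⟨q, r, hqr, hlt, hq, hr, hgap⟩ := closest h hinj hhM
      (fun g hg hgp => honly y g hyv (by omega) hg hgp) (ci i.1, i.2) (ci j.1, j.2)
      (ci_ne hij hf) hpi hpj
    obtain ⟨k, hk1, hk2, hk3⟩ := hN q r hqr hlt (y + h q) (by omega) hq
      (by rw [show y + h q + (h r - h q) = y + h r by omega]; exact hr)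
    exact hgap k hk1 hk2 hk3
  rcases fo_lt i.1 with hi | hi <;> rcases fo_lt j.1 with hj | hj
  · exact (hone i j hij (by omega) hpi hpj).elim
  · exact hcase i j hi hj hpi hpj
  · exact hcase j i hj hi hpj hpi
  · exact (hone i j hij (by omega) hpi hpj).elim

/-- The alternative, first form. -/
theorem alternative_core (H : ClusterPlus 3) : (∃ L : ℕ, 0 < L ∧ CluP 1 L Pol) ∨ NearPairs := by
  obtain ⟨L, D₁, hL, HC⟩ := id H
  by_cases hP : CluP 1 L Pol
  · exact Or.inl ⟨L, hL, hP⟩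
  · right
    unfold CluP at hP
    push Not at hP
    obtain ⟨h, hinj, hadm, hno⟩ := hP
    exact nearPairs_of_not H HC h hinj hadm hno

end PoolAlt
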