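import Pool.Agent.Work.MP_70e905_nt.Alt.KST
import Pool.Agent.Work.MP_70e905_nt.Pol.Step1

/-!
# Alt.Power : two clusters suffice, so there are few exceptions in every interval
-/

namespace PoolAlt

open Finset PoolQ4 PoolPol

theorem exists_free_class (p : ℕ) (H : Finset ℕ) (hH : #H < p) : ∃ v : ℕ, ∀ h ∈ H, ¬ p ∣ v + h := by
  classical
  have hp : 0 < p := by omega
  obtain ⟨v, hv, hv'⟩ := exists_mem_notMem_of_card_lt_card (s := H.image (fun h => (p - h % p) % p))
    (t := range p) (by
      rw [card_range]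
      exact lt_of_le_of_lt card_image_le hH)
  refine ⟨v, fun h hh hd => hv' (mem_image.2 ⟨h, hh, ?_⟩)⟩
  rw [mem_range] at hv
  have h1 := Nat.mod_lt h hp
  have h2 := Nat.div_add_mod h p
  obtain ⟨c, hc⟩ := hd
  have h3 : (v + h % p) % p = 0 := by
    have h4 : v + h % p + p * (h / p) = p * c := by omega
    have h5 : (v + h % p + p * (h / p)) % p = 0 := by
      rw [h4]
      exact Nat.mul_mod_right _ _
    rwa [Nat.add_mul_mod_self_left] at h5
  rcases Nat.eq_zero_or_pos (h % p) with h4 | h4
  · rw [h4] at h3 ⊢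
    rw [Nat.add_zero, Nat.mod_eq_of_lt hv] at h3
    simp [h3]
  · rw [Nat.mod_eq_of_lt (by omega : p - h % p < p)]
    have h5 : p ∣ v + h % p := Nat.dvd_of_mod_eq_zero h3
    obtain ⟨e, he⟩ := h5
    have h6 : e = 1 := by
      rcases Nat.lt_trichotomy e 1 with h7 | h7 | h7
      · have : e = 0 := by omega
        rw [this] at he
        omega
      · exact h7
      · have : p * 2 ≤ p * e := Nat.mul_le_mul_left _ h7
        omega
    rw [h6] at he
    omega

/-- a set with two residues modulo all small primes is admissible -/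
theorem admissible_two (L r : ℕ) (hr : Even r) (H : Finset ℕ) (hH : #H ≤ 2 * L)
    (hc : ∀ h ∈ H, h ≡ 0 [MOD primorial (2 * L)] ∨ h ≡ r [MOD primorial (2 * L)]) : Admissible H := by
  intro p hp
  rcases le_or_gt p (2 * L) with h | h
  · have hpW : p ∣ primorial (2 * L) := by
      unfold primorial
      exact dvd_prod_of_mem (fun p => p) (mem_filter.2 ⟨mem_range.2 (by omega), hp⟩)
    have hc' : ∀ h ∈ H, h ≡ 0 [MOD p] ∨ h ≡ r [MOD p] := fun h hh =>
      (hc h hh).imp (fun h' => h'.of_dvd hpW) (fun h' => h'.of_dvd hpW)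
    have key : ∀ v, ¬ p ∣ v → ¬ p ∣ v + r → ∀ h ∈ H, ¬ p ∣ v + h := by
      intro v h1 h2 h hh hd
      rcases hc' h hh with h3 | h3
      · have h4 : v + h ≡ v + 0 [MOD p] := h3.add_left v
        exact h1 (by simpa using (h4.dvd_iff dvd_rfl).1 hd)
      · have h4 : v + h ≡ v + r [MOD p] := h3.add_left v
        exact h2 ((h4.dvd_iff dvd_rfl).1 hd)
    have h1 : ¬ p ∣ 1 := fun h => hp.one_lt.ne' (Nat.dvd_one.1 h)
    rcases hp.eq_two_or_odd with rfl | hodd
    · refine ⟨1, key 1 h1 ?_⟩
      obtain ⟨c, hc⟩ := hr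
      omega
    · by_cases h2 : p ∣ 1 + r
      · refine ⟨2, key 2 ?_ ?_⟩
        · intro h3
          have h4 := Nat.le_of_dvd (by norm_num) h3
          have := hp.two_le
          have : p = 2 := by omega
          rw [this] at hodd
          omega
        · intro h3
          have h4 := (Nat.dvd_sub h3 h2)
          have h5 : 2 + r - (1 + r) = 1 := by omega
          rw [h5] at h4
          exact h1 h4
      · exact ⟨1, key 1 h1 h2⟩
  · exact exists_free_class p H (by omega)

theorem power (L : ℕ) (P : ℕ → Prop) [DecidablePred P] (hP : CluP 1 L P) :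
    ∃ C δ : ℝ, 0 < C ∧ 0 < δ ∧ ∀ Y X : ℕ, 1 ≤ X →
      (#((Ioc Y (Y + X)).filter (fun h => Even h ∧ ¬ P h)) : ℝ) ≤ C * (X : ℝ) ^ (1 - δ) := by
  classical
  have hL : 1 ≤ L := by
    by_contra h
    have h0 : L = 0 := by omega
    subst h0
    obtain ⟨s, _, _⟩ := hP (fun _ => 0) (fun a => a.2.elim0) (fun p hp => ⟨1, fun h hh => by
      obtain ⟨s, _⟩ := mem_image.1 hh
      exact s.2.elim0⟩)
    exact s.2.elim0
  set W : ℕ := primorial (2 * L) with hWdef
  have hW : 0 < W := primorial_pos _
  have h2W : 2 ∣ W := by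
    rw [hWdef]
    unfold primorial
    exact dvd_prod_of_mem (fun p => p) (mem_filter.2 ⟨mem_range.2 (by omega), Nat.prime_two⟩)
  obtain ⟨K, hK, hkst⟩ := kst L W hL hW
  have hLr : (1 : ℝ) ≤ L := by exact_mod_cast hL
  have hWr : (1 : ℝ) ≤ W := by exact_mod_cast hW
  refine ⟨W * (2 * max K 1), 1 / L, by positivity, by positivity, fun Y X hX => ?_⟩
  have hXr : (1 : ℝ) ≤ X := by exact_mod_cast hX
  set n : ℕ := X / W + 1 with hn
  have hXn : X ≤ W * n := by
    have := Nat.lt_mul_div_succ X hW
    rw [hn]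
    exact this.le
  have hnX : n ≤ 2 * X := by
    calc n = X / W + 1 := hn
      _ ≤ X + 1 := Nat.add_le_add_right (Nat.div_le_self X W) 1
      _ ≤ 2 * X := by omega
  have hnXr : (n : ℝ) ≤ 2 * X := by exact_mod_cast hnX
  set T : ℕ → Finset ℕ := fun r => (Ioc Y (Y + X)).filter (fun h => (Even h ∧ ¬ P h) ∧ h % W = r) with hT
  have hTr : ∀ r, (#(T r) : ℝ) ≤ 2 * max K 1 * (X : ℝ) ^ (1 - 1 / (L : ℝ)) := by
    intro r
    have h1 : (#(T r) : ℝ) ^ L ≤ K * (n : ℝ) ^ (L - 1) := by
      by_contra hlt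
      push Not at hlt
      obtain ⟨I, J, hI, hJ, hIJ⟩ := hkst n Y (T r) (Nat.succ_pos _) (fun t ht => by
        have := (mem_filter.1 ht).1
        rw [mem_Ioc] at this ⊢
        omega) hlt
      have hprop : ∀ t ∈ T r, 0 < t ∧ Even t ∧ ¬ P t ∧ t % W = r := by
        intro t ht
        obtain ⟨h1, ⟨h2, h3⟩, h4⟩ := mem_filter.1 ht
        rw [mem_Ioc] at h1
        exact ⟨by omega, h2, h3, h4⟩
      have hr : Even r := by
        obtain ⟨t, ht, _⟩ := hIJ ⟨0, hL⟩ ⟨0, hL⟩
        obtain ⟨_, h2, _, h4⟩ := hprop t ht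
        rw [← h4, Nat.even_iff]
        rw [Nat.even_iff] at h2
        rw [Nat.mod_mod_of_dvd _ h2W, h2]
      obtain ⟨s, t, hst, hPst⟩ := hP (fun s => if s.1 = 0 then W * I s.2 else J s.2) (by
        rintro ⟨i, a⟩ ⟨j, b⟩ hab
        simp only at hab
        by_cases hi : i = 0
        · by_cases hj : j = 0
          · rw [if_pos hi, if_pos hj] at hab
            have h2 := hI (Nat.eq_of_mul_eq_mul_left hW hab)
            rw [hi, hj, h2]
          · rw [if_pos hi, if_neg hj] at hab
            obtain ⟨t, ht, h2⟩ := hIJ a b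
            have := (hprop t ht).1
            omega
        · by_cases hj : j = 0
          · rw [if_neg hi, if_pos hj] at hab
            obtain ⟨t, ht, h2⟩ := hIJ b a
            have := (hprop t ht).1
            omega
          · rw [if_neg hi, if_neg hj] at hab
            have h2 := hJ hab
            have hi' : i = 1 := Fin.eq_one_of_ne_zero i hi
            have hj' : j = 1 := Fin.eq_one_of_ne_zero j hj
            rw [hi', hj', h2]) (by
        refine admissible_two L r hr _ ?_ ?_
        · refine card_image_le.trans ?_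
          rw [card_univ, Fintype.card_prod, Fintype.card_fin, Fintype.card_fin]
        · intro h hh
          obtain ⟨⟨i, a⟩, _, rfl⟩ := mem_image.1 hh
          simp only
          by_cases hi : i = 0
          · rw [if_pos hi]
            exact Or.inl (Nat.modEq_zero_iff_dvd.2 (Dvd.intro _ rfl))
          · rw [if_neg hi]
            obtain ⟨t, ht, h2⟩ := hIJ a a
            refine Or.inr ?_
            rw [h2]
            have h3 : W * I a + t ≡ 0 + r [MOD W] := by
              refine (Nat.modEq_zero_iff_dvd.2 (Dvd.intro _ rfl)).add ?_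
              have h4 := (hprop t ht).2.2.2
              rw [← h4]
              exact (Nat.mod_modEq t W).symm
            rwa [Nat.zero_add] at h3)
      have hs : s.1 = 0 := by
        have := s.1.2
        have := t.1.2
        have h3 : s.1.1 < t.1.1 := hst
        exact Fin.ext (by simp; omega)
      have ht : ¬ t.1 = 0 := by
        intro h0
        rw [h0] at hst
        exact absurd hst (by simp)
      simp only [hs, ht, if_true, if_false] at hPst
      obtain ⟨u, hu, h2⟩ := hIJ s.2 t.2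
      rw [h2, Nat.dist_eq_sub_of_le (Nat.le_add_right _ _), Nat.add_sub_cancel_left] at hPst
      exact (hprop u hu).2.2.1 hPst
    have h2 : K * (n : ℝ) ^ (L - 1) ≤ (2 * max K 1 * (X : ℝ) ^ (1 - 1 / (L : ℝ))) ^ L := by
      have h3 : ((X : ℝ) ^ (1 - 1 / (L : ℝ))) ^ L = (X : ℝ) ^ (L - 1) := by
        rw [← Real.rpow_natCast, ← Real.rpow_mul (by linarith), ← Real.rpow_natCast]
        congr 1
        rw [Nat.cast_sub hL]
        field_simp
        simp
      rw [mul_pow, mul_pow, h3]
      have h4 : (n : ℝ) ^ (L - 1) ≤ (2 * X) ^ (L - 1) := pow_le_pow_left₀ (Nat.cast_nonneg _) hnXr _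
      have h5 : K ≤ (max K 1) ^ L := by
        calc K ≤ max K 1 := le_max_left _ _
          _ = (max K 1) ^ 1 := (pow_one _).symm
          _ ≤ (max K 1) ^ L := pow_le_pow_right₀ (le_max_right _ _) hL
      have h6 : (2 : ℝ) ^ (L - 1) ≤ 2 ^ L := pow_le_pow_right₀ (by norm_num) (Nat.sub_le _ _)
      calc K * (n : ℝ) ^ (L - 1) ≤ K * (2 * X) ^ (L - 1) := mul_le_mul_of_nonneg_left h4 hK.le
        _ = K * 2 ^ (L - 1) * X ^ (L - 1) := by rw [mul_pow]; ring
        _ ≤ (max K 1) ^ L * 2 ^ L * X ^ (L - 1) := by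
            refine mul_le_mul_of_nonneg_right ?_ (by positivity)
            exact mul_le_mul h5 h6 (by positivity) (by positivity)
        _ = _ := by ring
    exact le_of_pow_le_pow_left₀ (by omega) (by positivity) (h1.trans h2)
  have hsum : #((Ioc Y (Y + X)).filter (fun h => Even h ∧ ¬ P h)) = ∑ r ∈ range W, #(T r) := by
    rw [card_eq_sum_card_fiberwise (f := fun h => h % W) (t := range W)
      (fun h _ => mem_coe.2 (mem_range.2 (Nat.mod_lt _ hW)))]
    refine sum_congr rfl fun r _ => ?_
    rw [filter_filter]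
  have h1 : (#((Ioc Y (Y + X)).filter (fun h => Even h ∧ ¬ P h)) : ℝ) = ∑ r ∈ range W, (#(T r) : ℝ) := by
    exact_mod_cast hsum
  rw [h1]
  calc ∑ r ∈ range W, (#(T r) : ℝ) ≤ ∑ r ∈ range W, 2 * max K 1 * (X : ℝ) ^ (1 - 1 / (L : ℝ)) :=
        sum_le_sum fun r _ => hTr r
    _ = _ := by
        rw [sum_const, card_range, nsmul_eq_mul]
        ring

end PoolAlt
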