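import Pool.Agent.Work.MP_70e905_nt.Alt.Core
import Pool.Agent.Work.MP_70e905_nt.Alt.Power
import Pool.Agent.Work.MP_70e905_nt.Pol.Final

/-!
# Alt.Final : the alternative theorem with a power saving exceptional set, from `ClusterPlus 3`
-/

set_option autoImplicit false

namespace PoolAlt

open Finset PoolQ4 PoolPol

theorem alternative_power (H : ClusterPlus 3) :
    (∃ C δ : ℝ, 0 < C ∧ 0 < δ ∧ ∀ Y X : ℕ, 1 ≤ X →
      (({h : ℕ | Y < h ∧ h ≤ Y + X ∧ Even h ∧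
          ¬ {n : ℕ | Nat.nth Nat.Prime (n + 1) = Nat.nth Nat.Prime n + h}.Infinite}.ncard : ℕ) : ℝ) ≤
        C * (X : ℝ) ^ (1 - δ)) ∨
    NearPairs := by
  classical
  rcases alternative_core H with ⟨L, -, hL⟩ | h
  · left
    have hL' : CluP 1 L Polignac := by
      intro g hg hadm
      obtain ⟨s, t, hst, hP⟩ := hL g hg hadm
      exact ⟨s, t, hst, (pol_iff _).1 hP⟩
    obtain ⟨C, δ, hC, hδ, h⟩ := power L Polignac hL'
    refine ⟨C, δ, hC, hδ, fun Y X hX => ?_⟩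
    have h1 : {h : ℕ | Y < h ∧ h ≤ Y + X ∧ Even h ∧
        ¬ {n : ℕ | Nat.nth Nat.Prime (n + 1) = Nat.nth Nat.Prime n + h}.Infinite} =
        (((Finset.Ioc Y (Y + X)).filter fun h => Even h ∧ ¬ Polignac h : Finset ℕ) : Set ℕ) := by
      ext k
      rw [Finset.mem_coe, Finset.mem_filter, Finset.mem_Ioc]
      constructor
      · rintro ⟨h2, h3, h4, h5⟩
        exact ⟨⟨h2, h3⟩, h4, h5⟩
      · rintro ⟨⟨h2, h3⟩, h4, h5⟩
        exact ⟨h2, h3, h4, h5⟩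
    rw [h1, Set.ncard_coe_finset]
    exact h Y X hX
  · exact Or.inr h

/-- The special case of the forms `z` and `z + n`. -/
theorem near_of_nearPairs (h : NearPairs) : ∃ C : ℕ, ∀ x n : ℕ, 1 ≤ x → n ≤ x →
    ∃ p q : ℕ, p.Prime ∧ q.Prime ∧ x < q ∧ p ≤ C * x ∧ q + n < p ∧ p ≤ q + n + C := by
  obtain ⟨C₁, hC⟩ := h 2
  refine ⟨7 + 6 * C₁, fun x n hx hn => ?_⟩
  rcases Nat.lt_or_ge C₁ x with h1 | h1
  · obtain ⟨z, c, c', hz1, hz2, hc, hc', hq, hp⟩ := hC x 1 1 0 (n + C₁ + 1) hx le_rfl (by norm_num)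
      le_rfl (by norm_num) (Nat.zero_le _) (by omega)
    rw [one_mul] at hq hp
    refine ⟨z + (n + C₁ + 1) + c', z + 0 + c, hp, hq, by omega, ?_, by omega, by omega⟩
    have h2 : 7 * x ≤ (7 + 6 * C₁) * x := Nat.mul_le_mul_right _ (by omega)
    omega
  · obtain ⟨q, hq, hq1, hq2⟩ := Nat.exists_prime_lt_and_le_two_mul x (by omega)
    obtain ⟨p, hp, hp1, hp2⟩ := Nat.exists_prime_lt_and_le_two_mul (q + n) (by omega)
    refine ⟨p, q, hp, hq, hq1, ?_, hp1, ?_⟩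
    · have h2 : 7 * x ≤ (7 + 6 * C₁) * x := Nat.mul_le_mul_right _ (by omega)
      omega
    · omega

end PoolAlt
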