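import Pool.Agent.Work.MP_70e905_nt.Alt.Core

/-!
# Alt.Four : two clusters near each of two linear forms, at one scale

Either there is a cross pair of primes (one near each form) or a pair of primes of the two clusters
near one of the forms.
-/

set_option autoImplicit false

namespace PoolAlt

open Finset PoolQ4 PoolPol

theorem four {L D₁ : ℕ}
    (HC : ∀ W A₀ C : ℕ, 0 < W → primorial D₁ ∣ W → ∃ X₀ : ℕ,
    ∀ (x v : ℕ) (a b : Fin (3 + 1) × Fin L → ℕ), X₀ ≤ x →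
      (∀ i, 1 ≤ a i ∧ a i ≤ A₀) → (∀ i, ∀ p : ℕ, p.Prime → p ∣ a i → p ∣ W) →
      (∀ i, b i ≤ C * x) → (∀ i, (a i * v + b i).Coprime W) →
      (∀ i j, i ≠ j → a i * b j ≠ a j * b i) →
      ∃ z, x < z ∧ z ≤ 2 * x ∧ z ≡ v [MOD W] ∧
        ∃ i j, i.1 ≠ j.1 ∧ (a i * z + b i).Prime ∧ (a j * z + b j).Prime)
    (W A B : ℕ) (hW : 0 < W) (hDW : primorial D₁ ∣ W) (hAW : ∀ p : ℕ, p.Prime → p ≤ A → p ∣ W) :
    ∃ X₀ E : ℕ, ∀ (x v : ℕ) (h : Fin 2 × Fin L → ℕ), X₀ ≤ x → 1 ≤ x → Function.Injective h →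
      (∀ s, (v + h s).Coprime W) → (∀ s, h s ≤ B * x) →
      ∀ a a' b b' : ℕ, 1 ≤ a → a ≤ A → 1 ≤ a' → a' ≤ A → b ≤ A * x → b' ≤ A * x →
        (∃ z s s' i j, x < z ∧ z ≤ 2 * x ∧ s ≤ E ∧ s' ≤ E ∧ (a * z + b + s + h i).Prime ∧
          (a' * z + b' + s' + h j).Prime) ∨
        (∃ y i j, i.1 ≠ j.1 ∧ x < y ∧ y ≤ 3 * A * x + E ∧ (y + h i).Prime ∧ (y + h j).Prime) := by
  classical
  obtain ⟨T, hT⟩ : ∃ T, T = Fintype.card (Fin 2 × Fin L) ^ 2 := ⟨_, rfl⟩
  obtain ⟨X₀, hX⟩ := HC W A (A + W + W * T + B) hW hDW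
  refine ⟨X₀, W + W * T, ?_⟩
  intro x v h hxX hx hinj hcop hhB a a' b b' ha haA ha' haA' hb hb'
  obtain ⟨s₁, hs₁, hs₁v⟩ := exists_base hW v b
  obtain ⟨s₂, hs₂, hs₂v⟩ := exists_base hW v b'
  obtain ⟨t, ht, htne⟩ := exists_shift h W a a' (b + s₁) (b' + s₂) hW ha
  rw [← hT] at ht
  have hWt : W * t ≤ W * T := Nat.mul_le_mul_left _ ht
  -- the forms
  obtain ⟨aa, haa⟩ : ∃ aa : Fin (3 + 1) × Fin L → ℕ,
    aa = fun i => if fo i.1 = 0 then a else a' := ⟨_, rfl⟩
  obtain ⟨BB, hBB⟩ : ∃ BB : Fin (3 + 1) → ℕ,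
    BB = fun k => if fo k = 0 then b + s₁ else b' + s₂ + W * t := ⟨_, rfl⟩
  obtain ⟨bb, hbb⟩ : ∃ bb : Fin (3 + 1) × Fin L → ℕ,
    bb = fun i => BB i.1 + h (ci i.1, i.2) := ⟨_, rfl⟩
  have haa1 : ∀ i, 1 ≤ aa i ∧ aa i ≤ A := by
    intro i
    rw [haa]
    show 1 ≤ (if fo i.1 = 0 then a else a') ∧ (if fo i.1 = 0 then a else a') ≤ A
    split_ifs
    · exact ⟨ha, haA⟩
    · exact ⟨ha', haA'⟩
  have hBBv : ∀ k, BB k ≡ v [MOD W] := by
    intro k
    rw [hBB]
    show (if fo k = 0 then b + s₁ else b' + s₂ + W * t) ≡ v [MOD W]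
    split_ifs
    · exact hs₁v
    · refine Nat.ModEq.trans ?_ hs₂v
      unfold Nat.ModEq
      rw [Nat.add_mul_mod_self_left]
  have hx1 : ∀ m : ℕ, m ≤ m * x := fun m => Nat.le_mul_of_pos_right m hx
  have hBBle : ∀ k, BB k ≤ A * x + W + W * T := by
    intro k
    rw [hBB]
    show (if fo k = 0 then b + s₁ else b' + s₂ + W * t) ≤ _
    split_ifs <;> omega
  have hbbC : ∀ i, bb i ≤ (A + W + W * T + B) * x := by
    intro i
    rw [hbb]
    show BB i.1 + h (ci i.1, i.2) ≤ _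
    have h1 := hhB (ci i.1, i.2)
    have h2 := hBBle i.1
    have h3 := hx1 W
    have h4 := hx1 (W * T)
    calc BB i.1 + h (ci i.1, i.2) ≤ A * x + W + W * T + B * x := by omega
      _ ≤ A * x + W * x + W * T * x + B * x := by omega
      _ = (A + W + W * T + B) * x := by ring
  have hbbcop : ∀ i, (aa i * 0 + bb i).Coprime W := by
    intro i
    rw [hbb]
    show (aa i * 0 + (BB i.1 + h (ci i.1, i.2))).Coprime W
    rw [mul_zero, zero_add]
    have h1 : BB i.1 + h (ci i.1, i.2) ≡ v + h (ci i.1, i.2) [MOD W] := (hBBv _).add_right _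
    rw [Nat.Coprime, h1.gcd_eq]
    exact hcop _
  have hdif : ∀ i j, i ≠ j → aa i * bb j ≠ aa j * bb i := by
    have hsame : ∀ i j : Fin (3 + 1) × Fin L, i ≠ j → fo i.1 = fo j.1 →
        aa i * bb j ≠ aa j * bb i := by
      intro i j hij hf heq
      have h1 : aa i = aa j := by rw [haa]; show (if fo i.1 = 0 then a else a') = _; rw [hf]
      have h2 : BB i.1 = BB j.1 := by
        rw [hBB]
        show (if fo i.1 = 0 then b + s₁ else b' + s₂ + W * t) = _
        rw [hf]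
      rw [h1] at heq
      have h3 := Nat.eq_of_mul_eq_mul_left (haa1 j).1 heq
      rw [hbb] at h3
      have h4 : BB j.1 + h (ci j.1, j.2) = BB i.1 + h (ci i.1, i.2) := h3
      rw [h2] at h4
      have h5 := hinj (Nat.add_left_cancel h4)
      have h6 : ci j.1 = ci i.1 := (Prod.ext_iff.1 h5).1
      have h7 : j.2 = i.2 := (Prod.ext_iff.1 h5).2
      exact hij (Prod.ext (index_inj hf h6.symm) h7.symm)
    have hcross : ∀ i j : Fin (3 + 1) × Fin L, fo i.1 = 0 → fo j.1 = 1 →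
        aa i * bb j ≠ aa j * bb i := by
      intro i j hi hj heq
      have h1 : aa i = a := by rw [haa]; exact if_pos hi
      have h2 : aa j = a' := by rw [haa]; exact if_neg (by omega)
      have h3 : bb i = b + s₁ + h (ci i.1, i.2) := by
        rw [hbb, hBB]
        show (if fo i.1 = 0 then b + s₁ else b' + s₂ + W * t) + _ = _
        rw [if_pos hi]
      have h4 : bb j = b' + s₂ + W * t + h (ci j.1, j.2) := by
        rw [hbb, hBB]
        show (if fo j.1 = 0 then b + s₁ else b' + s₂ + W * t) + _ = _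
        rw [if_neg (by omega)]
      rw [h1, h2, h3, h4] at heq
      exact htne _ _ heq
    intro i j hij
    rcases fo_lt i.1 with hi | hi <;> rcases fo_lt j.1 with hj | hj
    · exact hsame i j hij (by omega)
    · exact hcross i j hi hj
    · exact fun heq => hcross j i hj hi heq.symm
    · exact hsame i j hij (by omega)
  obtain ⟨z, hz1, hz2, hzv, i, j, hij, hpi, hpj⟩ := hX x 0 aa bb hxX haa1
    (fun i p hp hd => hAW p hp ((Nat.le_of_dvd (haa1 i).1 hd).trans (haa1 i).2))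
    hbbC hbbcop hdif
  have hval : ∀ i : Fin (3 + 1) × Fin L,
      aa i * z + bb i = (aa i * z + BB i.1) + h (ci i.1, i.2) := by
    intro i
    rw [hbb]
    ring
  have hcase : ∀ i j : Fin (3 + 1) × Fin L, fo i.1 = 0 → fo j.1 = 1 →
      (aa i * z + bb i).Prime → (aa j * z + bb j).Prime →
      ∃ z s s' i j, x < z ∧ z ≤ 2 * x ∧ s ≤ W + W * T ∧ s' ≤ W + W * T ∧
        (a * z + b + s + h i).Prime ∧ (a' * z + b' + s' + h j).Prime := by
    intro i j hi hj hpi hpj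
    have h1 : aa i = a := by rw [haa]; exact if_pos hi
    have h2 : aa j = a' := by rw [haa]; exact if_neg (by omega)
    have h3 : BB i.1 = b + s₁ := by rw [hBB]; exact if_pos hi
    have h4 : BB j.1 = b' + s₂ + W * t := by rw [hBB]; exact if_neg (by omega)
    refine ⟨z, s₁, s₂ + W * t, (ci i.1, i.2), (ci j.1, j.2), hz1, hz2, by omega, by omega, ?_, ?_⟩
    · rw [hval, h1, h3] at hpi
      rw [show a * z + b + s₁ = a * z + (b + s₁) by ring]
      exact hpi
    · rw [hval, h2, h4] at hpj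
      rw [show a' * z + b' + (s₂ + W * t) = a' * z + (b' + s₂ + W * t) by ring]
      exact hpj
  have hone : ∀ i j : Fin (3 + 1) × Fin L, i.1 ≠ j.1 → fo i.1 = fo j.1 →
      (aa i * z + bb i).Prime → (aa j * z + bb j).Prime →
      ∃ y i j, i.1 ≠ j.1 ∧ x < y ∧ y ≤ 3 * A * x + (W + W * T) ∧ (y + h i).Prime ∧
        (y + h j).Prime := by
    intro i j hij hf hpi hpj
    have h1 : aa i = aa j := by rw [haa]; show (if fo i.1 = 0 then a else a') = _; rw [hf]
    have h2 : BB i.1 = BB j.1 := by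
      rw [hBB]
      show (if fo i.1 = 0 then b + s₁ else b' + s₂ + W * t) = _
      rw [hf]
    obtain ⟨y, hy⟩ : ∃ y, y = aa i * z + BB i.1 := ⟨_, rfl⟩
    rw [hval, ← hy] at hpi
    rw [hval, ← h1, ← h2, ← hy] at hpj
    refine ⟨y, (ci i.1, i.2), (ci j.1, j.2), ci_ne hij hf, ?_, ?_, hpi, hpj⟩
    · have h3 : z ≤ aa i * z := Nat.le_mul_of_pos_left z (haa1 i).1
      omega
    · have h3 : aa i * z ≤ A * (2 * x) := Nat.mul_le_mul (haa1 i).2 hz2
      have h4 := hBBle i.1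
      have h5 : A * (2 * x) + A * x = 3 * A * x := by ring
      omega
  rcases fo_lt i.1 with hi | hi <;> rcases fo_lt j.1 with hj | hj
  · exact Or.inr (hone i j hij (by omega) hpi hpj)
  · exact Or.inl (hcase i j hi hj hpi hpj)
  · exact Or.inl (hcase j i hj hi hpj hpi)
  · exact Or.inr (hone i j hij (by omega) hpi hpj)

end PoolAlt
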