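import Pool.Agent.Work.MP_70e905_nt.Alt.Local

/-!
# Alt.Gap : large gaps between the differences of primes force few exceptions below them
-/

set_option autoImplicit false

namespace PoolAlt

open Finset PoolQ4 PoolPol

theorem gap (H : ClusterPlus 3) : ∃ (C : ℕ) (δ : ℝ), 0 < δ ∧ ∀ x Y X : ℕ, 1 ≤ X → Y + X ≤ x →
    (∀ n : ℕ, n ≤ x → ∃ p q : ℕ, p.Prime ∧ q.Prime ∧ x < q ∧ p ≤ C * x ∧ q + n < p ∧
      p ≤ q + n + C * (Y + X)) ∨
    (({h : ℕ | Y < h ∧ h ≤ Y + X ∧ Even h ∧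
      ¬ ∃ p q : ℕ, p.Prime ∧ q.Prime ∧ x < q ∧ p ≤ C * x ∧ p = q + h}.ncard : ℕ) : ℝ) ≤
      C * (X : ℝ) ^ (1 - δ) := by
  classical
  obtain ⟨δ, hδ, h⟩ := local_alt H
  obtain ⟨C, hC⟩ := h 2
  refine ⟨7 + 6 * C, δ, hδ, fun x Y X hX hXx => ?_⟩
  have hxx : 7 * x ≤ (7 + 6 * C) * x := Nat.mul_le_mul_right _ (by omega)
  rcases hC x Y X hX hXx with h1 | h1
  · left
    intro n hn
    have hC1 : C ≤ C * (Y + X) := Nat.le_mul_of_pos_right C (by omega)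
    have hCC : (7 + 6 * C) * (Y + X) = 7 * (Y + X) + 6 * (C * (Y + X)) := by ring
    rcases Nat.lt_or_ge (C * (Y + X)) x with h2 | h2
    · obtain ⟨z, c, c', hz1, hz2, hc, hc', hq, hp⟩ := h1 1 1 0 (n + C * (Y + X) + 1) le_rfl
        (by norm_num) le_rfl (by norm_num) (Nat.zero_le _) (by omega)
      rw [one_mul] at hq hp
      exact ⟨z + (n + C * (Y + X) + 1) + c', z + 0 + c, hp, hq, by omega, by omega, by omega,
        by omega⟩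
    · obtain ⟨q, hq, hq1, hq2⟩ := Nat.exists_prime_lt_and_le_two_mul x (by omega)
      obtain ⟨p, hp, hp1, hp2⟩ := Nat.exists_prime_lt_and_le_two_mul (q + n) (by omega)
      exact ⟨p, q, hp, hq, hq1, by omega, hp1, by omega⟩
  · right
    have h2 : ({h : ℕ | Y < h ∧ h ≤ Y + X ∧ Even h ∧
        ¬ ∃ p q : ℕ, p.Prime ∧ q.Prime ∧ x < q ∧ p ≤ (7 + 6 * C) * x ∧ p = q + h}.ncard : ℕ) ≤
        {h : ℕ | Y < h ∧ h ≤ Y + X ∧ Even h ∧ NoDiff C x h}.ncard := by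
      refine Set.ncard_le_ncard ?_ ?_
      · rintro k ⟨h3, h4, h5, h6⟩
        refine ⟨h3, h4, h5, ?_⟩
        rintro ⟨p, q, hp, hq, h7, h8, h9⟩
        have h10 : C * x ≤ (7 + 6 * C) * x := Nat.mul_le_mul_right _ (by omega)
        exact h6 ⟨p, q, hp, hq, h7, h8.trans h10, h9⟩
      · refine (Set.finite_Iic (Y + X)).subset ?_
        rintro k ⟨_, h4, _⟩
        exact h4
    calc (({h : ℕ | Y < h ∧ h ≤ Y + X ∧ Even h ∧
        ¬ ∃ p q : ℕ, p.Prime ∧ q.Prime ∧ x < q ∧ p ≤ (7 + 6 * C) * x ∧ p = q + h}.ncard : ℕ) : ℝ)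
        ≤ (({h : ℕ | Y < h ∧ h ≤ Y + X ∧ Even h ∧ NoDiff C x h}.ncard : ℕ) : ℝ) := by
          exact_mod_cast h2
      _ ≤ C * (X : ℝ) ^ (1 - δ) := h1
      _ ≤ ((7 + 6 * C : ℕ) : ℝ) * (X : ℝ) ^ (1 - δ) := by
          refine mul_le_mul_of_nonneg_right ?_ (by positivity)
          exact_mod_cast (by omega : C ≤ 7 + 6 * C)

end PoolAlt
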