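import Mathlib

/-!
# Alt.KSTB : the statement of Alt.KST with bounds for the numbers `I a`, `J b`

Copy of the proof of Alt.KST (helper97).
-/

namespace PoolAlt

open Finset

private theorem pow_le_choose_addB (L : ℕ) (hL : 1 ≤ L) (d : ℕ) :
    ((d : ℕ) : ℝ) ^ L ≤ 2 ^ L * L.factorial * (d.choose L : ℝ) + (2 * L) ^ L := by
  rcases lt_or_ge d (2 * L) with h | h
  · have h1 : (d : ℝ) ≤ 2 * L := by exact_mod_cast h.le
    have h2 : ((d : ℕ) : ℝ) ^ L ≤ (2 * L) ^ L := pow_le_pow_left₀ (Nat.cast_nonneg _) h1 L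
    have h3 : (0 : ℝ) ≤ 2 ^ L * L.factorial * (d.choose L : ℝ) := by positivity
    linarith
  · have h1 := Nat.pow_le_choose (α := ℝ) L d
    rw [div_le_iff₀ (by exact_mod_cast L.factorial_pos)] at h1
    have h2 : (d : ℝ) ≤ 2 * ((d + 1 - L : ℕ) : ℝ) := by
      have : d ≤ 2 * (d + 1 - L) := by omega
      exact_mod_cast this
    have h3 : ((d : ℕ) : ℝ) ^ L ≤ (2 * ((d + 1 - L : ℕ) : ℝ)) ^ L :=
      pow_le_pow_left₀ (Nat.cast_nonneg _) h2 L
    rw [mul_pow] at h3
    have h4 : (2 : ℝ) ^ L * ((d + 1 - L : ℕ) : ℝ) ^ L ≤ 2 ^ L * ((d.choose L : ℝ) * L.factorial) := by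
      exact mul_le_mul_of_nonneg_left h1 (by positivity)
    have h5 : (0 : ℝ) ≤ (2 * L) ^ L := by positivity
    calc ((d : ℕ) : ℝ) ^ L ≤ 2 ^ L * ((d.choose L : ℝ) * L.factorial) := h3.trans h4
      _ = 2 ^ L * L.factorial * (d.choose L : ℝ) := by ring
      _ ≤ _ := by linarith

theorem kstB (L W : ℕ) (hL : 1 ≤ L) (hW : 1 ≤ W) : ∃ K : ℝ, 0 < K ∧ ∀ (n Y : ℕ) (T : Finset ℕ), 1 ≤ n →
    T ⊆ Ioc Y (Y + W * n) → K * (n : ℝ) ^ (L - 1) < (#T : ℝ) ^ L →
    ∃ I J : Fin L → ℕ, Function.Injective I ∧ Function.Injective J ∧ (∀ a, I a < n) ∧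
      (∀ b, J b ≤ Y + 2 * W * n) ∧ ∀ a b, ∃ t ∈ T, J b = W * I a + t := by
  classical
  set K : ℝ := (2 * W) ^ (L - 1) * (2 ^ L * L.factorial * L + 2 * W * (2 * L) ^ L) with hK
  have hWr : (1 : ℝ) ≤ W := by exact_mod_cast hW
  have hLr : (1 : ℝ) ≤ L := by exact_mod_cast hL
  have hKpos : 0 < K := by
    rw [hK]
    have : (0 : ℝ) < L.factorial := by exact_mod_cast L.factorial_pos
    positivity
  refine ⟨K, hKpos, fun n Y T hn hT hbig => ?_⟩
  have hnr : (1 : ℝ) ≤ n := by exact_mod_cast hn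
  set V : Finset ℕ := Ioc Y (Y + 2 * W * n) with hV
  set N : ℕ → Finset ℕ := fun v => (range n).filter (fun i => ∃ t ∈ T, v = W * i + t) with hN
  by_contra hcon
  push Not at hcon
  -- no `L`-set of `range n` has `L` common neighbours
  have hS : ∀ S ∈ (range n).powersetCard L, #(V.filter (fun v => S ⊆ N v)) ≤ L := by
    intro S hS
    rw [mem_powersetCard] at hS
    by_contra hlt
    push Not at hlt
    obtain ⟨V', hV', hV'c⟩ := exists_subset_card_eq hlt.le
    obtain ⟨a, b, hab⟩ := hcon (fun a => (S.equivFinOfCardEq hS.2).symm a)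
      (fun b => (V'.equivFinOfCardEq hV'c).symm b)
      (fun x y h => (S.equivFinOfCardEq hS.2).symm.injective (Subtype.ext h))
      (fun x y h => (V'.equivFinOfCardEq hV'c).symm.injective (Subtype.ext h))
      (fun a => mem_range.1 (hS.1 ((S.equivFinOfCardEq hS.2).symm a).2))
      (fun b => (mem_Ioc.1 (mem_filter.1 (hV' ((V'.equivFinOfCardEq hV'c).symm b).2)).1).2)
    have h1 := (mem_filter.1 (hV' ((V'.equivFinOfCardEq hV'c).symm b).2)).2
      ((S.equivFinOfCardEq hS.2).symm a).2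
    obtain ⟨_, t, ht, h2⟩ := mem_filter.1 h1
    exact hab t ht h2
  -- double counting
  have hcount1 : ∑ v ∈ V, #(N v) = n * #T := by
    have h1 : ∑ v ∈ V, #(N v) = ∑ i ∈ range n, #(V.filter (fun v => ∃ t ∈ T, v = W * i + t)) := by
      simp only [hN, card_filter]
      exact sum_comm
    rw [h1]
    have h2 : ∀ i ∈ range n, #(V.filter (fun v => ∃ t ∈ T, v = W * i + t)) = #T := by
      intro i hi
      rw [mem_range] at hi
      have h3 : V.filter (fun v => ∃ t ∈ T, v = W * i + t) = T.image (fun t => W * i + t) := by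
        ext v
        rw [mem_filter, mem_image]
        constructor
        · rintro ⟨_, t, ht, h4⟩
          exact ⟨t, ht, h4.symm⟩
        · rintro ⟨t, ht, rfl⟩
          refine ⟨?_, t, ht, rfl⟩
          have h5 := mem_Ioc.1 (hT ht)
          have h6 : W * i ≤ W * n := Nat.mul_le_mul_left _ hi.le
          rw [hV, mem_Ioc]
          have h7 : 2 * W * n = W * n + W * n := by ring
          omega
      rw [h3, card_image_of_injective _ (fun x y h => by simpa using h)]
    rw [sum_congr rfl h2, sum_const, card_range, smul_eq_mul]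
  have hcount2 : ∑ v ∈ V, (#(N v)).choose L ≤ L * n ^ L := by
    have h1 : ∑ v ∈ V, (#(N v)).choose L =
        ∑ S ∈ (range n).powersetCard L, #(V.filter (fun v => S ⊆ N v)) := by
      have h2 : ∀ v ∈ V, (#(N v)).choose L = #(((range n).powersetCard L).filter (fun S => S ⊆ N v)) := by
        intro v _
        rw [← card_powersetCard]
        congr 1
        ext S
        rw [mem_powersetCard, mem_filter, mem_powersetCard]
        constructor
        · rintro ⟨h3, h4⟩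
          exact ⟨⟨h3.trans (filter_subset _ _), h4⟩, h3⟩
        · rintro ⟨⟨_, h4⟩, h5⟩
          exact ⟨h5, h4⟩
      rw [sum_congr rfl h2]
      simp only [card_filter]
      exact sum_comm
    rw [h1]
    calc ∑ S ∈ (range n).powersetCard L, #(V.filter (fun v => S ⊆ N v))
        ≤ ∑ S ∈ (range n).powersetCard L, L := sum_le_sum hS
      _ = n.choose L * L := by rw [sum_const, card_powersetCard, card_range, smul_eq_mul]
      _ ≤ n ^ L * L := Nat.mul_le_mul_right _ (Nat.choose_le_pow n L)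
      _ = L * n ^ L := Nat.mul_comm _ _
  have hVc : (#V : ℝ) = 2 * W * n := by
    rw [hV, Nat.card_Ioc]
    have : Y + 2 * W * n - Y = 2 * W * n := by omega
    rw [this]
    push_cast
    ring
  have hpm : (∑ v ∈ V, (#(N v) : ℝ)) ^ L ≤ (2 * W * n) ^ (L - 1) * ∑ v ∈ V, (#(N v) : ℝ) ^ L := by
    obtain ⟨m, rfl⟩ : ∃ m, L = m + 1 := ⟨L - 1, by omega⟩
    have h1 := pow_sum_div_card_le_sum_pow (s := V) (f := fun v => (#(N v) : ℝ))
      (fun v _ => Nat.cast_nonneg _) m
    rw [div_le_iff₀ (by rw [hVc]; positivity), hVc] at h1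
    rw [Nat.add_sub_cancel, mul_comm]
    exact h1
  have h1 : (∑ v ∈ V, (#(N v) : ℝ)) = n * #T := by exact_mod_cast hcount1
  rw [h1] at hpm
  have h2 : ∑ v ∈ V, (#(N v) : ℝ) ^ L ≤ 2 ^ L * L.factorial * (L * n ^ L) + (2 * W * n) * (2 * L) ^ L := by
    calc ∑ v ∈ V, (#(N v) : ℝ) ^ L
        ≤ ∑ v ∈ V, (2 ^ L * L.factorial * ((#(N v)).choose L : ℝ) + (2 * L) ^ L) :=
          sum_le_sum fun v _ => pow_le_choose_addB L hL _
      _ = 2 ^ L * L.factorial * (∑ v ∈ V, ((#(N v)).choose L : ℝ)) + #V * (2 * L) ^ L := by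
          rw [sum_add_distrib, ← mul_sum, sum_const, nsmul_eq_mul]
      _ ≤ _ := by
          rw [hVc]
          have h3 : (∑ v ∈ V, ((#(N v)).choose L : ℝ)) ≤ L * n ^ L := by exact_mod_cast hcount2
          have h4 : (0 : ℝ) ≤ 2 ^ L * L.factorial := by positivity
          have h5 := mul_le_mul_of_nonneg_left h3 h4
          linarith
  have h3 : (n : ℝ) ≤ (n : ℝ) ^ L := by
    calc (n : ℝ) = n ^ 1 := (pow_one _).symm
      _ ≤ n ^ L := pow_le_pow_right₀ hnr hL
  have h4 : ∑ v ∈ V, (#(N v) : ℝ) ^ L ≤ (2 ^ L * L.factorial * L + 2 * W * (2 * L) ^ L) * n ^ L := by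
    refine h2.trans ?_
    have h5 : (2 * W * n : ℝ) * (2 * L) ^ L ≤ 2 * W * (2 * L) ^ L * n ^ L := by
      have h6 : (0 : ℝ) ≤ 2 * W * (2 * L) ^ L := by positivity
      calc (2 * W * n : ℝ) * (2 * L) ^ L = 2 * W * (2 * L) ^ L * n := by ring
        _ ≤ _ := mul_le_mul_of_nonneg_left h3 h6
    linarith
  have h5 : (n * #T : ℝ) ^ L ≤ K * (n : ℝ) ^ (L - 1) * (n : ℝ) ^ L := by
    refine hpm.trans ?_
    calc (2 * W * n : ℝ) ^ (L - 1) * ∑ v ∈ V, (#(N v) : ℝ) ^ L
        ≤ (2 * W * n) ^ (L - 1) * ((2 ^ L * L.factorial * L + 2 * W * (2 * L) ^ L) * n ^ L) :=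
          mul_le_mul_of_nonneg_left h4 (by positivity)
      _ = _ := by
          rw [hK, mul_pow (2 * (W : ℝ)) (n : ℝ)]
          ring
  rw [mul_pow, mul_comm ((n : ℝ) ^ L)] at h5
  have h6 := le_of_mul_le_mul_right h5 (by positivity)
  linarith

end PoolAlt
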