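import Pool.Agent.Work.MP_70e905_nt.Alt.Four
import Pool.Agent.Work.MP_70e905_nt.Alt.KSTB
import Pool.Agent.Work.MP_70e905_nt.Alt.Power

/-!
# Alt.Local : the alternative at every scale

For all `X ≥ 1`, `Y + X ≤ x`: either every pair of linear forms has simultaneous prime values at the
scale `x`, up to `C (Y + X)`, or all but `C X ^ (1 - δ)` of the even numbers of `(Y, Y + X]` are
differences of two primes between `x` and `C x`.
-/

set_option autoImplicit false

namespace PoolAlt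

open Finset PoolQ4 PoolPol

/-- `h` is no difference of two primes between `x` and `C x`. -/
def NoDiff (C x h : ℕ) : Prop :=
  ¬ ∃ p q : ℕ, p.Prime ∧ q.Prime ∧ x < q ∧ p ≤ C * x ∧ p = q + h

theorem local_alt (H : ClusterPlus 3) : ∃ δ : ℝ, 0 < δ ∧ ∀ A : ℕ, ∃ C : ℕ, ∀ x Y X : ℕ,
    1 ≤ X → Y + X ≤ x →
    (∀ a a' b b' : ℕ, 1 ≤ a → a ≤ A → 1 ≤ a' → a' ≤ A → b ≤ A * x → b' ≤ A * x →
      ∃ z c c' : ℕ, x < z ∧ z ≤ 2 * x ∧ c ≤ C * (Y + X) ∧ c' ≤ C * (Y + X) ∧
        (a * z + b + c).Prime ∧ (a' * z + b' + c').Prime) ∨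
    (({h : ℕ | Y < h ∧ h ≤ Y + X ∧ Even h ∧ NoDiff C x h}.ncard : ℕ) : ℝ) ≤
      C * (X : ℝ) ^ (1 - δ) := by
  classical
  obtain ⟨L, D₁, hL, HC⟩ := id H
  have hLr : (1 : ℝ) ≤ L := by exact_mod_cast hL
  refine ⟨1 / L, by positivity, fun A => ?_⟩
  obtain ⟨D, hD⟩ : ∃ D, D = max D₁ (max (2 * L) A) := ⟨_, rfl⟩
  have hDD₁ : D₁ ≤ D := by rw [hD]; exact le_max_left _ _
  have hD2L : 2 * L ≤ D := by rw [hD]; exact le_trans (le_max_left _ _) (le_max_right _ _)
  have hDA : A ≤ D := by rw [hD]; exact le_trans (le_max_right _ _) (le_max_right _ _)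
  have hdvd : ∀ n m : ℕ, n ≤ m → primorial n ∣ primorial m := by
    intro n m hnm
    unfold primorial
    exact Finset.prod_dvd_prod_of_subset _ _ _ (fun p hp => by
      rw [mem_filter, mem_range] at hp ⊢
      exact ⟨by omega, hp.2⟩)
  have hpdvd : ∀ p : ℕ, p.Prime → p ≤ D → p ∣ primorial D := by
    intro p hp hpD
    unfold primorial
    exact Finset.dvd_prod_of_mem (fun p => p) (mem_filter.2 ⟨mem_range.2 (by omega), hp⟩)
  obtain ⟨W, hWD⟩ : ∃ W, W = primorial D := ⟨_, rfl⟩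
  have hW : 0 < W := by rw [hWD]; exact primorial_pos _
  have h2W : 2 ∣ W := by rw [hWD]; exact hpdvd 2 Nat.prime_two (by omega)
  have hWr : (1 : ℝ) ≤ W := by exact_mod_cast hW
  obtain ⟨K, hK, hkst⟩ := kstB L W hL hW
  obtain ⟨X₀, E, hfour⟩ := four HC W A (2 + 2 * W) hW (by rw [hWD]; exact hdvd _ _ hDD₁)
    (fun p hp hpA => by rw [hWD]; exact hpdvd p hp (hpA.trans hDA))
  obtain ⟨Q, hQ⟩ := exists_nat_ge ((W : ℝ) * (2 * max K 1))
  obtain ⟨C, hC⟩ : ∃ C, C = E + 3 * A + 2 + 2 * W + X₀ + Q := ⟨_, rfl⟩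
  have hCE : E + 2 + 2 * W ≤ C := by omega
  have hCA : 3 * A + E + 2 + 2 * W ≤ C := by omega
  have hCX : X₀ ≤ C := by omega
  have hCQ : (W : ℝ) * (2 * max K 1) ≤ C := hQ.trans (by exact_mod_cast (by omega : Q ≤ C))
  refine ⟨C, fun x Y X hX hXx => ?_⟩
  have hXr : (1 : ℝ) ≤ X := by exact_mod_cast hX
  have hδ0 : (0 : ℝ) ≤ 1 - 1 / (L : ℝ) := by
    have : 1 / (L : ℝ) ≤ 1 := by
      rw [div_le_one (by linarith)]
      exact hLr
    linarith
  have hXpow : (1 : ℝ) ≤ (X : ℝ) ^ (1 - 1 / (L : ℝ)) := Real.one_le_rpow hXr hδ0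
  -- the set as a finset
  obtain ⟨F, hF⟩ : ∃ F : Finset ℕ, F = (Ioc Y (Y + X)).filter fun h => Even h ∧ NoDiff C x h := ⟨_, rfl⟩
  have hFn : ({h : ℕ | Y < h ∧ h ≤ Y + X ∧ Even h ∧ NoDiff C x h}.ncard : ℕ) = #F := by
    rw [← Set.ncard_coe_finset]
    congr 1
    ext h
    rw [hF, mem_coe, mem_filter, mem_Ioc]
    constructor
    · rintro ⟨h1, h2, h3, h4⟩
      exact ⟨⟨h1, h2⟩, h3, h4⟩
    · rintro ⟨⟨h1, h2⟩, h3, h4⟩
      exact ⟨h1, h2, h3, h4⟩
  rw [hFn]
  rcases Nat.lt_or_ge x X₀ with hx | hx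
  · right
    have h1 : #F ≤ X := by
      rw [hF]
      refine (card_filter_le _ _).trans ?_
      rw [Nat.card_Ioc]
      omega
    have h2 : (#F : ℝ) ≤ C := by exact_mod_cast (by omega : #F ≤ C)
    calc (#F : ℝ) ≤ C * 1 := by rw [mul_one]; exact h2
      _ ≤ C * (X : ℝ) ^ (1 - 1 / (L : ℝ)) := mul_le_mul_of_nonneg_left hXpow (Nat.cast_nonneg _)
  by_contra hcon
  rw [not_or] at hcon
  obtain ⟨hcon1, hcon2⟩ := hcon
  rw [not_le] at hcon2
  refine hcon1 fun a a' b b' ha haA ha' haA' hb hb' => ?_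
  obtain ⟨n, hn⟩ : ∃ n, n = X / W + 1 := ⟨_, rfl⟩
  have hXn : X ≤ W * n := by
    have := Nat.lt_mul_div_succ X hW
    rw [hn]
    exact this.le
  have hWn : W * n ≤ X + W := by
    rw [hn, mul_add, mul_one]
    exact Nat.add_le_add_right (Nat.mul_div_le X W) W
  have hnX : n ≤ 2 * X := by
    calc n = X / W + 1 := hn
      _ ≤ X + 1 := Nat.add_le_add_right (Nat.div_le_self X W) 1
      _ ≤ 2 * X := by omega
  have hnXr : (n : ℝ) ≤ 2 * X := by exact_mod_cast hnX
  obtain ⟨r, hrW, hr⟩ : ∃ r, r < W ∧ 2 * max K 1 * (X : ℝ) ^ (1 - 1 / (L : ℝ)) <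
      (#(F.filter fun h => h % W = r) : ℝ) := by
    by_contra hno
    push Not at hno
    have hsum : #F = ∑ r ∈ range W, #(F.filter fun h => h % W = r) :=
      card_eq_sum_card_fiberwise (f := fun h => h % W) (t := range W)
        (fun h _ => mem_coe.2 (mem_range.2 (Nat.mod_lt _ hW)))
    have h1 : (#F : ℝ) ≤ W * (2 * max K 1 * (X : ℝ) ^ (1 - 1 / (L : ℝ))) := by
      rw [hsum]
      push_cast
      calc ∑ r ∈ range W, (#(F.filter fun h => h % W = r) : ℝ)
          ≤ ∑ r ∈ range W, 2 * max K 1 * (X : ℝ) ^ (1 - 1 / (L : ℝ)) :=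
            sum_le_sum fun r hr => hno r (mem_range.1 hr)
        _ = _ := by rw [sum_const, card_range, nsmul_eq_mul]
    have h2 : (W : ℝ) * (2 * max K 1 * (X : ℝ) ^ (1 - 1 / (L : ℝ))) ≤
        C * (X : ℝ) ^ (1 - 1 / (L : ℝ)) := by
      rw [← mul_assoc]
      exact mul_le_mul_of_nonneg_right hCQ (by linarith)
    linarith
  obtain ⟨T, hT⟩ : ∃ T, T = F.filter fun h => h % W = r := ⟨_, rfl⟩
  rw [← hT] at hr
  have hbig : K * (n : ℝ) ^ (L - 1) < (#T : ℝ) ^ L := by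
    have h2 : K * (n : ℝ) ^ (L - 1) ≤ (2 * max K 1 * (X : ℝ) ^ (1 - 1 / (L : ℝ))) ^ L := by
      have h3 : ((X : ℝ) ^ (1 - 1 / (L : ℝ))) ^ L = (X : ℝ) ^ (L - 1) := by
        rw [← Real.rpow_natCast, ← Real.rpow_mul (by linarith), ← Real.rpow_natCast]
        congr 1
        rw [Nat.cast_sub hL]
        field_simp
        simp
      rw [mul_pow, mul_pow, h3]
      have h4 : (n : ℝ) ^ (L - 1) ≤ (2 * X) ^ (L - 1) := pow_le_pow_left₀ (Nat.cast_nonneg _) hnXr _
      have h5 : K ≤ (max K 1) ^ L := by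
        calc K ≤ max K 1 := le_max_left _ _
          _ = (max K 1) ^ 1 := (pow_one _).symm
          _ ≤ (max K 1) ^ L := pow_le_pow_right₀ (le_max_right _ _) hL
      have h6 : (2 : ℝ) ^ (L - 1) ≤ 2 ^ L := pow_le_pow_right₀ (by norm_num) (Nat.sub_le _ _)
      calc K * (n : ℝ) ^ (L - 1) ≤ K * (2 * X) ^ (L - 1) := mul_le_mul_of_nonneg_left h4 hK.le
        _ = K * 2 ^ (L - 1) * X ^ (L - 1) := by rw [mul_pow]; ring
        _ ≤ (max K 1) ^ L * 2 ^ L * X ^ (L - 1) := by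
            refine mul_le_mul_of_nonneg_right ?_ (by positivity)
            exact mul_le_mul h5 h6 (by positivity) (by positivity)
        _ = _ := by ring
    exact h2.trans_lt (pow_lt_pow_left₀ hr (by positivity) (by omega))
  have hprop : ∀ t ∈ T, Y < t ∧ t ≤ Y + X ∧ Even t ∧ NoDiff C x t ∧ t % W = r := by
    intro t ht
    rw [hT] at ht
    obtain ⟨h1, h4⟩ := mem_filter.1 ht
    rw [hF] at h1
    obtain ⟨h1, h2, h3⟩ := mem_filter.1 h1
    rw [mem_Ioc] at h1
    exact ⟨h1.1, h1.2, h2, h3, h4⟩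
  have hn1 : 1 ≤ n := by rw [hn]; exact Nat.succ_pos _
  obtain ⟨I, J, hI, hJ, hIn, hJn, hIJ⟩ := hkst n Y T hn1 (fun t ht => by
    have := hprop t ht
    rw [mem_Ioc]
    omega) hbig
  have hreven : Even r := by
    obtain ⟨t, ht, _⟩ := hIJ ⟨0, hL⟩ ⟨0, hL⟩
    obtain ⟨_, _, h2, _, h4⟩ := hprop t ht
    rw [← h4, Nat.even_iff]
    rw [Nat.even_iff] at h2
    rw [Nat.mod_mod_of_dvd _ h2W, h2]
  obtain ⟨h, hh⟩ : ∃ h : Fin 2 × Fin L → ℕ, h = fun s => if s.1 = 0 then W * I s.2 else J s.2 :=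
    ⟨_, rfl⟩
  have hinj : Function.Injective h := by
    rw [hh]
    rintro ⟨i, a⟩ ⟨j, b⟩ hab
    simp only at hab
    by_cases hi : i = 0
    · by_cases hj : j = 0
      · rw [if_pos hi, if_pos hj] at hab
        have h2 := hI (Nat.eq_of_mul_eq_mul_left hW hab)
        rw [hi, hj, h2]
      · rw [if_pos hi, if_neg hj] at hab
        obtain ⟨t, ht, h2⟩ := hIJ a b
        have := (hprop t ht).1
        omega
    · by_cases hj : j = 0
      · rw [if_neg hi, if_pos hj] at hab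
        obtain ⟨t, ht, h2⟩ := hIJ b a
        have := (hprop t ht).1
        omega
      · rw [if_neg hi, if_neg hj] at hab
        have h2 := hJ hab
        have hi' : i = 1 := Fin.eq_one_of_ne_zero i hi
        have hj' : j = 1 := Fin.eq_one_of_ne_zero j hj
        rw [hi', hj', h2]
  have hmod : ∀ s, h s ≡ 0 [MOD W] ∨ h s ≡ r [MOD W] := by
    rintro ⟨i, a⟩
    rw [hh]
    by_cases hi : i = 0
    · left
      show (if i = 0 then W * I a else J a) ≡ 0 [MOD W]
      rw [if_pos hi]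
      exact Nat.modEq_zero_iff_dvd.2 (Dvd.intro _ rfl)
    · right
      show (if i = 0 then W * I a else J a) ≡ r [MOD W]
      rw [if_neg hi]
      obtain ⟨t, ht, h2⟩ := hIJ a a
      rw [h2]
      have h3 : W * I a + t ≡ 0 + r [MOD W] := by
        refine (Nat.modEq_zero_iff_dvd.2 (Dvd.intro _ rfl)).add ?_
        have h4 := (hprop t ht).2.2.2.2
        rw [← h4]
        exact (Nat.mod_modEq t W).symm
      rwa [Nat.zero_add] at h3
  have hadm : Admissible (Finset.univ.image h) := by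
    refine admissible_two L r hreven _ ?_ ?_
    · refine card_image_le.trans ?_
      rw [card_univ, Fintype.card_prod, Fintype.card_fin, Fintype.card_fin]
    · intro y hy
      obtain ⟨s, _, rfl⟩ := mem_image.1 hy
      have h2L : primorial (2 * L) ∣ W := by rw [hWD]; exact hdvd _ _ hD2L
      exact (hmod s).imp (fun h' => h'.of_dvd h2L) (fun h' => h'.of_dvd h2L)
  obtain ⟨v, hv⟩ := exists_coprime_shift hadm D
  have hcop : ∀ s, (v + h s).Coprime W := fun s => by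
    rw [hWD]
    exact hv _ (Finset.mem_image_of_mem h (Finset.mem_univ s))
  have hhle : ∀ s, h s ≤ Y + 2 * X + 2 * W := by
    rintro ⟨i, a⟩
    rw [hh]
    show (if i = 0 then W * I a else J a) ≤ _
    split_ifs
    · have h1 : W * I a ≤ W * n := Nat.mul_le_mul_left _ (hIn a).le
      omega
    · have h1 := hJn a
      have h2 : Y + 2 * W * n = Y + W * n + W * n := by ring
      omega
  have hx1 : W ≤ W * x := Nat.le_mul_of_pos_right W (by omega)
  have hX1 : W ≤ W * (Y + X) := Nat.le_mul_of_pos_right W (by omega)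
  have hhB : ∀ s, h s ≤ (2 + 2 * W) * x := by
    intro s
    have h1 := hhle s
    calc h s ≤ 2 * x + 2 * (W * x) := by omega
      _ = (2 + 2 * W) * x := by ring
  rcases hfour x v h hx (by omega) hinj hcop hhB a a' b b' ha haA ha' haA' hb hb' with
    ⟨z, s, s', i, j, hz1, hz2, hs, hs', hp1, hp2⟩ | ⟨y, i, j, hij, hy1, hy2, hp1, hp2⟩
  · have hE1 : E ≤ E * (Y + X) := Nat.le_mul_of_pos_right E (by omega)
    have hCX2 : (E + 2 + 2 * W) * (Y + X) ≤ C * (Y + X) := Nat.mul_le_mul_right _ hCE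
    have hexp : (E + 2 + 2 * W) * (Y + X) = E * (Y + X) + 2 * (Y + X) + 2 * (W * (Y + X)) := by ring
    have h1 := hhle i
    have h2 := hhle j
    refine ⟨z, s + h i, s' + h j, hz1, hz2, by omega, by omega, ?_, ?_⟩
    · rw [← add_assoc]
      exact hp1
    · rw [← add_assoc]
      exact hp2
  · exfalso
    have hone : ∀ i j : Fin 2 × Fin L, i.1 = 0 → j.1 ≠ 0 → (y + h i).Prime → (y + h j).Prime →
        False := by
      intro i j hi hj hp1 hp2
      obtain ⟨t, ht, h2⟩ := hIJ i.2 j.2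
      obtain ⟨_, htX, _, h3, _⟩ := hprop t ht
      have hhi : h i = W * I i.2 := by rw [hh]; exact if_pos hi
      have hhj : h j = J j.2 := by rw [hh]; exact if_neg hj
      refine h3 ⟨y + h j, y + h i, hp2, hp1, by omega, ?_, ?_⟩
      · have h4 := hhle j
        have hE1 : E ≤ E * x := Nat.le_mul_of_pos_right E (by omega)
        have hCX2 : (3 * A + E + 2 + 2 * W) * x ≤ C * x := Nat.mul_le_mul_right _ hCA
        have hexp : (3 * A + E + 2 + 2 * W) * x = 3 * A * x + E * x + 2 * x + 2 * (W * x) := by ring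
        omega
      · rw [hhi, hhj, h2]
        ring
    by_cases hi : i.1 = 0
    · exact hone i j hi (fun h0 => hij (by rw [hi, h0])) hp1 hp2
    · have hj : j.1 = 0 := by
        by_contra hj
        exact hij (by rw [Fin.eq_one_of_ne_zero _ hi, Fin.eq_one_of_ne_zero _ hj])
      exact hone j i hj hi hp2 hp1

end PoolAlt
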