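import Pool.Agent.Work.MP_70e905_nt.Alt.KST
import Pool.Agent.Work.MP_70e905_nt.Alt.Power

/-!
# Alt.Pairs : few pairs of even numbers have a difference that is not a Polignac number

`kst_graph` : the theorem of Kovari, Sos and Turan for a relation on a finite set.
`pairs` : from `CluP 1 L P`, among any `N` even numbers all but `C N ^ (2 - δ)` pairs have their
difference in `P`.
`progressions` : every arithmetic progression of `X` even numbers has at most `C X ^ (1 - δ)` members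
outside `P`.
-/

namespace PoolAlt

open Finset PoolQ4 PoolPol

private theorem pow_le_choose_add' (L : ℕ) (d : ℕ) :
    ((d : ℕ) : ℝ) ^ L ≤ 2 ^ L * L.factorial * (d.choose L : ℝ) + (2 * L) ^ L := by
  rcases lt_or_ge d (2 * L) with h | h
  · have h1 : (d : ℝ) ≤ 2 * L := by exact_mod_cast h.le
    have h2 : ((d : ℕ) : ℝ) ^ L ≤ (2 * L) ^ L := pow_le_pow_left₀ (Nat.cast_nonneg _) h1 L
    have h3 : (0 : ℝ) ≤ 2 ^ L * L.factorial * (d.choose L : ℝ) := by positivity
    linarith
  · have h1 := Nat.pow_le_choose (α := ℝ) L d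
    rw [div_le_iff₀ (by exact_mod_cast L.factorial_pos)] at h1
    have h2 : (d : ℝ) ≤ 2 * ((d + 1 - L : ℕ) : ℝ) := by
      have : d ≤ 2 * (d + 1 - L) := by omega
      exact_mod_cast this
    have h3 : ((d : ℕ) : ℝ) ^ L ≤ (2 * ((d + 1 - L : ℕ) : ℝ)) ^ L :=
      pow_le_pow_left₀ (Nat.cast_nonneg _) h2 L
    rw [mul_pow] at h3
    have h4 : (2 : ℝ) ^ L * ((d + 1 - L : ℕ) : ℝ) ^ L ≤ 2 ^ L * ((d.choose L : ℝ) * L.factorial) := by
      exact mul_le_mul_of_nonneg_left h1 (by positivity)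
    have h5 : (0 : ℝ) ≤ (2 * L) ^ L := by positivity
    calc ((d : ℕ) : ℝ) ^ L ≤ 2 ^ L * ((d.choose L : ℝ) * L.factorial) := h3.trans h4
      _ = 2 ^ L * L.factorial * (d.choose L : ℝ) := by ring
      _ ≤ _ := by linarith

theorem kst_graph (L : ℕ) (hL : 1 ≤ L) : ∃ K : ℝ, 0 < K ∧ ∀ (A : Finset ℕ) (R : ℕ → ℕ → Prop)
    [DecidableRel R],
    (∀ S T : Finset ℕ, S ⊆ A → T ⊆ A → #S = L → #T = L → ∃ s ∈ S, ∃ t ∈ T, ¬ R s t) →
    (#((A ×ˢ A).filter (fun p => R p.1 p.2)) : ℝ) ≤ K * (#A : ℝ) ^ (2 - 1 / (L : ℝ)) := by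
  classical
  have hLr : (1 : ℝ) ≤ L := by exact_mod_cast hL
  set K₀ : ℝ := 2 ^ L * L.factorial * L + (2 * L) ^ L with hK₀
  have hK₀pos : 0 < K₀ := by
    have : (0 : ℝ) < L.factorial := by exact_mod_cast L.factorial_pos
    positivity
  refine ⟨max K₀ 1, by positivity, fun A R _ hno => ?_⟩
  rcases Finset.eq_empty_or_nonempty A with rfl | hA
  · rw [empty_product, filter_empty, card_empty, Nat.cast_zero]
    positivity
  set n : ℕ := #A with hn
  have hn1 : 1 ≤ n := hA.card_pos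
  have hnr : (1 : ℝ) ≤ n := by exact_mod_cast hn1
  set N : ℕ → Finset ℕ := fun v => A.filter (fun u => R u v) with hN
  have hS : ∀ S ∈ A.powersetCard L, #(A.filter (fun v => S ⊆ N v)) ≤ L := by
    intro S hS
    rw [mem_powersetCard] at hS
    by_contra hlt
    push Not at hlt
    obtain ⟨V', hV', hV'c⟩ := exists_subset_card_eq hlt.le
    obtain ⟨s, hs, t, ht, hst⟩ := hno S V' hS.1 (hV'.trans (filter_subset _ _)) hS.2 hV'c
    have h1 := (mem_filter.1 (hV' ht)).2 hs
    exact hst (mem_filter.1 h1).2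
  have hcount1 : #((A ×ˢ A).filter (fun p => R p.1 p.2)) = ∑ v ∈ A, #(N v) := by
    rw [card_filter, sum_product_right]
    refine sum_congr rfl fun v _ => ?_
    rw [hN, card_filter]
  have hcount2 : ∑ v ∈ A, (#(N v)).choose L ≤ L * n ^ L := by
    have h1 : ∑ v ∈ A, (#(N v)).choose L =
        ∑ S ∈ A.powersetCard L, #(A.filter (fun v => S ⊆ N v)) := by
      have h2 : ∀ v ∈ A, (#(N v)).choose L = #((A.powersetCard L).filter (fun S => S ⊆ N v)) := by
        intro v _
        rw [← card_powersetCard]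
        congr 1
        ext S
        rw [mem_powersetCard, mem_filter, mem_powersetCard]
        constructor
        · rintro ⟨h3, h4⟩
          exact ⟨⟨h3.trans (filter_subset _ _), h4⟩, h3⟩
        · rintro ⟨⟨_, h4⟩, h5⟩
          exact ⟨h5, h4⟩
      rw [sum_congr rfl h2]
      simp only [card_filter]
      exact sum_comm
    rw [h1]
    calc ∑ S ∈ A.powersetCard L, #(A.filter (fun v => S ⊆ N v))
        ≤ ∑ S ∈ A.powersetCard L, L := sum_le_sum hS
      _ = n.choose L * L := by rw [sum_const, card_powersetCard, smul_eq_mul]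
      _ ≤ n ^ L * L := Nat.mul_le_mul_right _ (Nat.choose_le_pow n L)
      _ = L * n ^ L := Nat.mul_comm _ _
  have hpm : (∑ v ∈ A, (#(N v) : ℝ)) ^ L ≤ (n : ℝ) ^ (L - 1) * ∑ v ∈ A, (#(N v) : ℝ) ^ L := by
    obtain ⟨m, rfl⟩ : ∃ m, L = m + 1 := ⟨L - 1, by omega⟩
    have h1 := pow_sum_div_card_le_sum_pow (s := A) (f := fun v => (#(N v) : ℝ))
      (fun v _ => Nat.cast_nonneg _) m
    rw [div_le_iff₀ (by positivity)] at h1
    rw [Nat.add_sub_cancel, mul_comm]
    exact h1
  have h2 : ∑ v ∈ A, (#(N v) : ℝ) ^ L ≤ K₀ * n ^ L := by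
    calc ∑ v ∈ A, (#(N v) : ℝ) ^ L
        ≤ ∑ v ∈ A, (2 ^ L * L.factorial * ((#(N v)).choose L : ℝ) + (2 * L) ^ L) :=
          sum_le_sum fun v _ => pow_le_choose_add' L _
      _ = 2 ^ L * L.factorial * (∑ v ∈ A, ((#(N v)).choose L : ℝ)) + n * (2 * L) ^ L := by
          rw [sum_add_distrib, ← mul_sum, sum_const, nsmul_eq_mul]
      _ ≤ _ := by
          have h3 : (∑ v ∈ A, ((#(N v)).choose L : ℝ)) ≤ L * n ^ L := by exact_mod_cast hcount2
          have h4 : (0 : ℝ) ≤ 2 ^ L * L.factorial := by positivity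
          have h5 := mul_le_mul_of_nonneg_left h3 h4
          have h6 : (n : ℝ) ≤ (n : ℝ) ^ L := by
            calc (n : ℝ) = n ^ 1 := (pow_one _).symm
              _ ≤ n ^ L := pow_le_pow_right₀ hnr hL
          have h7 : (n : ℝ) * (2 * L) ^ L ≤ (n : ℝ) ^ L * (2 * L) ^ L :=
            mul_le_mul_of_nonneg_right h6 (by positivity)
          rw [hK₀]
          linarith
  have hsum : (#((A ×ˢ A).filter (fun p => R p.1 p.2)) : ℝ) = ∑ v ∈ A, (#(N v) : ℝ) := by
    rw [hcount1]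
    push_cast
    rfl
  rw [hsum]
  have h3 : (∑ v ∈ A, (#(N v) : ℝ)) ^ L ≤ (max K₀ 1 * (n : ℝ) ^ (2 - 1 / (L : ℝ))) ^ L := by
    have h4 : ((n : ℝ) ^ (2 - 1 / (L : ℝ))) ^ L = (n : ℝ) ^ (L - 1) * (n : ℝ) ^ L := by
      rw [← Real.rpow_natCast, ← Real.rpow_mul (by linarith), ← pow_add, ← Real.rpow_natCast]
      congr 1
      rw [Nat.cast_add, Nat.cast_sub hL]
      field_simp
      push_cast
      ring
    rw [mul_pow, h4]
    have h5 : K₀ ≤ (max K₀ 1) ^ L := by
      calc K₀ ≤ max K₀ 1 := le_max_left _ _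
        _ = (max K₀ 1) ^ 1 := (pow_one _).symm
        _ ≤ (max K₀ 1) ^ L := pow_le_pow_right₀ (le_max_right _ _) hL
    calc (∑ v ∈ A, (#(N v) : ℝ)) ^ L ≤ (n : ℝ) ^ (L - 1) * ∑ v ∈ A, (#(N v) : ℝ) ^ L := hpm
      _ ≤ (n : ℝ) ^ (L - 1) * (K₀ * n ^ L) := mul_le_mul_of_nonneg_left h2 (by positivity)
      _ = K₀ * ((n : ℝ) ^ (L - 1) * (n : ℝ) ^ L) := by ring
      _ ≤ (max K₀ 1) ^ L * ((n : ℝ) ^ (L - 1) * (n : ℝ) ^ L) :=
          mul_le_mul_of_nonneg_right h5 (by positivity)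
  exact le_of_pow_le_pow_left₀ (by omega) (by positivity) h3

/-- a set with two even residues modulo all small primes is admissible -/
theorem admissible_two' (L r₀ r₁ : ℕ) (hr₀ : Even r₀) (hr₁ : Even r₁) (H : Finset ℕ)
    (hH : #H ≤ 2 * L)
    (hc : ∀ h ∈ H, h ≡ r₀ [MOD primorial (2 * L)] ∨ h ≡ r₁ [MOD primorial (2 * L)]) :
    Admissible H := by
  classical
  intro p hp
  rcases le_or_gt p (2 * L) with h | h
  · have hpW : p ∣ primorial (2 * L) := by
      unfold primorial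
      exact dvd_prod_of_mem (fun p => p) (mem_filter.2 ⟨mem_range.2 (by omega), hp⟩)
    have hc' : ∀ h ∈ H, h ≡ r₀ [MOD p] ∨ h ≡ r₁ [MOD p] := fun h hh =>
      (hc h hh).imp (fun h' => h'.of_dvd hpW) (fun h' => h'.of_dvd hpW)
    have key : ∀ v, ¬ p ∣ v + r₀ → ¬ p ∣ v + r₁ → ∀ h ∈ H, ¬ p ∣ v + h := by
      intro v h1 h2 h hh hd
      rcases hc' h hh with h3 | h3
      · have h4 : v + h ≡ v + r₀ [MOD p] := h3.add_left v
        exact h1 ((h4.dvd_iff dvd_rfl).1 hd)
      · have h4 : v + h ≡ v + r₁ [MOD p] := h3.add_left v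
        exact h2 ((h4.dvd_iff dvd_rfl).1 hd)
    rcases hp.eq_two_or_odd with rfl | hodd
    · refine ⟨1, key 1 ?_ ?_⟩
      · obtain ⟨c, hc⟩ := hr₀
        omega
      · obtain ⟨c, hc⟩ := hr₁
        omega
    · have hp3 : 2 < p := by
        have := hp.two_le
        omega
      obtain ⟨v, hv⟩ := exists_free_class p {r₀, r₁} (lt_of_le_of_lt card_le_two hp3)
      exact ⟨v, key v (hv r₀ (by simp)) (hv r₁ (by simp))⟩
  · exact exists_free_class p H (by omega)

/-- `W L` integers contain `L` in one residue class modulo `W` -/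
theorem exists_class (W L : ℕ) (hW : 0 < W) (S : Finset ℕ) (hS : #S = W * L) :
    ∃ r, ∃ S' ⊆ S, #S' = L ∧ ∀ s ∈ S', s % W = r := by
  classical
  obtain ⟨r, -, hr⟩ := exists_le_card_fiber_of_mul_le_card_of_maps_to
    (s := S) (t := range W) (f := fun s => s % W) (n := L)
    (fun s _ => mem_range.2 (Nat.mod_lt _ hW)) (nonempty_range_iff.2 hW.ne')
    (by rw [card_range, hS])
  obtain ⟨S', hS', hc⟩ := exists_subset_card_eq hr
  exact ⟨r, S', hS'.trans (filter_subset _ _), hc, fun s hs => (mem_filter.1 (hS' hs)).2⟩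

theorem pairs (L : ℕ) (P : ℕ → Prop) [DecidablePred P] (hP : CluP 1 L P) :
    ∃ C δ : ℝ, 0 < C ∧ 0 < δ ∧ δ ≤ 1 ∧ ∀ A : Finset ℕ, (∀ a ∈ A, Even a) →
      (#((A ×ˢ A).filter (fun p => p.1 < p.2 ∧ ¬ P (p.2 - p.1))) : ℝ) ≤ C * (#A : ℝ) ^ (2 - δ) := by
  classical
  have hL : 1 ≤ L := by
    by_contra h
    have h0 : L = 0 := by omega
    subst h0
    obtain ⟨s, _, _⟩ := hP (fun _ => 0) (fun a => a.2.elim0) (fun p hp => ⟨1, fun h hh => by
      obtain ⟨s, _⟩ := mem_image.1 hh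
      exact s.2.elim0⟩)
    exact s.2.elim0
  set W : ℕ := primorial (2 * L) with hWdef
  have hW : 0 < W := primorial_pos _
  have h2W : 2 ∣ W := by
    rw [hWdef]
    unfold primorial
    exact dvd_prod_of_mem (fun p => p) (mem_filter.2 ⟨mem_range.2 (by omega), Nat.prime_two⟩)
  have hWL : 1 ≤ W * L := Nat.mul_pos hW hL
  obtain ⟨K, hK, hkst⟩ := kst_graph (W * L) hWL
  have hWLr : (1 : ℝ) ≤ ((W * L : ℕ) : ℝ) := by exact_mod_cast hWL
  refine ⟨K, 1 / ((W * L : ℕ) : ℝ), hK, by positivity, ?_, fun A hA => ?_⟩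
  · rw [div_le_one (by linarith)]
    exact hWLr
  set R : ℕ → ℕ → Prop := fun a b => a ≠ b ∧ ¬ P (Nat.dist a b) with hR
  have h1 := hkst A R (by
    intro S T hS hT hSc hTc
    by_contra hno
    push Not at hno
    obtain ⟨r₀, S', hS', hS'c, hSr⟩ := exists_class W L hW S hSc
    obtain ⟨r₁, T', hT', hT'c, hTr⟩ := exists_class W L hW T hTc
    have hRst : ∀ s ∈ S', ∀ t ∈ T', R s t := fun s hs t ht => hno s (hS' hs) t (hT' ht)
    set I : Fin L → ℕ := fun a => (S'.equivFinOfCardEq hS'c).symm a with hI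
    set J : Fin L → ℕ := fun a => (T'.equivFinOfCardEq hT'c).symm a with hJ
    have hIm : ∀ a, I a ∈ S' := fun a => ((S'.equivFinOfCardEq hS'c).symm a).2
    have hJm : ∀ a, J a ∈ T' := fun a => ((T'.equivFinOfCardEq hT'c).symm a).2
    have hIi : Function.Injective I := fun x y h =>
      (S'.equivFinOfCardEq hS'c).symm.injective (Subtype.ext h)
    have hJi : Function.Injective J := fun x y h =>
      (T'.equivFinOfCardEq hT'c).symm.injective (Subtype.ext h)
    have hev : ∀ (X : Finset ℕ) (r : ℕ), X ⊆ A → X.Nonempty → (∀ s ∈ X, s % W = r) → Even r := by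
      intro X r hX hne hr
      obtain ⟨s, hs⟩ := hne
      have h2 := hA s (hX hs)
      rw [← hr s hs, Nat.even_iff]
      rw [Nat.even_iff] at h2
      rw [Nat.mod_mod_of_dvd _ h2W, h2]
    have hr₀ : Even r₀ := hev S' r₀ (hS'.trans hS) (card_pos.1 (by omega)) hSr
    have hr₁ : Even r₁ := hev T' r₁ (hT'.trans hT) (card_pos.1 (by omega)) hTr
    have hmod : ∀ s r, s % W = r → s ≡ r [MOD W] := by
      intro s r h
      rw [← h]
      exact (Nat.mod_modEq s W).symm
    obtain ⟨s, t, hst, hPst⟩ := hP (fun s => if s.1 = 0 then I s.2 else J s.2) (by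
      rintro ⟨i, a⟩ ⟨j, b⟩ hab
      simp only at hab
      by_cases hi : i = 0
      · by_cases hj : j = 0
        · rw [if_pos hi, if_pos hj] at hab
          have h2 := hIi hab
          rw [hi, hj, h2]
        · rw [if_pos hi, if_neg hj] at hab
          exact absurd hab (hRst _ (hIm a) _ (hJm b)).1
      · by_cases hj : j = 0
        · rw [if_neg hi, if_pos hj] at hab
          exact absurd hab.symm (hRst _ (hIm b) _ (hJm a)).1
        · rw [if_neg hi, if_neg hj] at hab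
          have h2 := hJi hab
          have hi' : i = 1 := Fin.eq_one_of_ne_zero i hi
          have hj' : j = 1 := Fin.eq_one_of_ne_zero j hj
          rw [hi', hj', h2]) (by
      refine admissible_two' L r₀ r₁ hr₀ hr₁ _ ?_ ?_
      · refine card_image_le.trans ?_
        rw [card_univ, Fintype.card_prod, Fintype.card_fin, Fintype.card_fin]
      · intro h hh
        obtain ⟨⟨i, a⟩, _, rfl⟩ := mem_image.1 hh
        simp only
        by_cases hi : i = 0
        · rw [if_pos hi]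
          exact Or.inl (hmod _ _ (hSr _ (hIm a)))
        · rw [if_neg hi]
          exact Or.inr (hmod _ _ (hTr _ (hJm a))))
    have hs : s.1 = 0 := by
      have := s.1.2
      have := t.1.2
      have h3 : s.1.1 < t.1.1 := hst
      exact Fin.ext (by simp; omega)
    have ht : ¬ t.1 = 0 := by
      intro h0
      rw [h0] at hst
      exact absurd hst (by simp)
    simp only [hs, ht, if_true, if_false] at hPst
    exact (hRst _ (hIm s.2) _ (hJm t.2)).2 hPst)
  refine le_trans ?_ h1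
  have h2 : (A ×ˢ A).filter (fun p => p.1 < p.2 ∧ ¬ P (p.2 - p.1)) ⊆
      (A ×ˢ A).filter (fun p => R p.1 p.2) := by
    intro p hp
    rw [mem_filter] at hp ⊢
    refine ⟨hp.1, hp.2.1.ne, ?_⟩
    rw [Nat.dist_eq_sub_of_le hp.2.1.le]
    exact hp.2.2
  exact_mod_cast card_le_card h2

/-- From sets to arithmetic progressions. -/
theorem progressions (P : ℕ → Prop) [DecidablePred P] (C δ : ℝ) (hC : 0 < C) (hδ0 : 0 < δ) (hδ : δ ≤ 1)
    (h : ∀ A : Finset ℕ, (∀ a ∈ A, Even a) →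
      (#((A ×ˢ A).filter (fun p => p.1 < p.2 ∧ ¬ P (p.2 - p.1))) : ℝ) ≤ C * (#A : ℝ) ^ (2 - δ)) :
    ∀ r d X : ℕ, Even r → Even d → 0 < r → 0 < d →
      (#((range X).filter (fun j => ¬ P (r + j * d))) : ℝ) ≤ 9 * C * (X : ℝ) ^ (1 - δ) := by
  classical
  intro r d X hr hd hr0 hd0
  rcases Nat.eq_zero_or_pos X with rfl | hX
  · rw [range_zero, filter_empty, card_empty, Nat.cast_zero]
    positivity
  have hXr : (1 : ℝ) ≤ X := by exact_mod_cast hX
  set A : Finset ℕ := (range X).image (fun i => i * d) ∪ (range (2 * X)).image (fun i => r + i * d)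
    with hA
  have hAe : ∀ a ∈ A, Even a := by
    intro a ha
    rcases mem_union.1 ha with h1 | h1
    · obtain ⟨i, -, rfl⟩ := mem_image.1 h1
      exact hd.mul_left i
    · obtain ⟨i, -, rfl⟩ := mem_image.1 h1
      exact hr.add (hd.mul_left i)
  have hAc : #A ≤ 3 * X := by
    refine (card_union_le _ _).trans ?_
    have h1 := card_image_le (s := range X) (f := fun i => i * d)
    have h2 := card_image_le (s := range (2 * X)) (f := fun i => r + i * d)
    rw [card_range] at h1 h2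
    omega
  set E : Finset ℕ := (range X).filter (fun j => ¬ P (r + j * d)) with hE
  have h1 : #(range X ×ˢ E) ≤ #((A ×ˢ A).filter (fun p => p.1 < p.2 ∧ ¬ P (p.2 - p.1))) := by
    refine card_le_card_of_injOn (fun q => (q.1 * d, r + (q.1 + q.2) * d)) ?_ ?_
    · rintro ⟨i, j⟩ hq
      rw [mem_coe, mem_product] at hq
      simp only at hq
      obtain ⟨hi, hj⟩ := hq
      rw [hE, mem_filter, mem_range] at hj
      rw [mem_range] at hi
      rw [mem_coe, mem_filter, mem_product]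
      simp only
      refine ⟨⟨?_, ?_⟩, ?_, ?_⟩
      · exact mem_union_left _ (mem_image.2 ⟨i, mem_range.2 hi, rfl⟩)
      · exact mem_union_right _ (mem_image.2 ⟨i + j, mem_range.2 (by omega), rfl⟩)
      · have : (i + j) * d = i * d + j * d := by ring
        omega
      · have h2 : r + (i + j) * d - i * d = r + j * d := by
          have : (i + j) * d = i * d + j * d := by ring
          omega
        rw [h2]
        exact hj.2
    · rintro ⟨i, j⟩ _ ⟨i', j'⟩ _ hq
      simp only [Prod.mk.injEq] at hq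
      obtain ⟨h3, h4⟩ := hq
      have h5 : i = i' := Nat.eq_of_mul_eq_mul_right hd0 h3
      subst h5
      have h6 : (i + j) * d = (i + j') * d := by omega
      have h7 := Nat.eq_of_mul_eq_mul_right hd0 h6
      have h8 : j = j' := by omega
      rw [h8]
  rw [card_product, card_range] at h1
  have h2 : (X : ℝ) * #E ≤ C * (#A : ℝ) ^ (2 - δ) := by
    refine le_trans ?_ (h A hAe)
    exact_mod_cast h1
  have hAcr : (#A : ℝ) ≤ 3 * X := by exact_mod_cast hAc
  have h3 : (#A : ℝ) ^ (2 - δ) ≤ 9 * (X * (X : ℝ) ^ (1 - δ)) := by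
    calc (#A : ℝ) ^ (2 - δ) ≤ (3 * X : ℝ) ^ (2 - δ) :=
          Real.rpow_le_rpow (Nat.cast_nonneg _) hAcr (by linarith)
      _ = (3 : ℝ) ^ (2 - δ) * (X : ℝ) ^ (2 - δ) :=
          Real.mul_rpow (by norm_num) (Nat.cast_nonneg _)
      _ ≤ (3 : ℝ) ^ (2 : ℝ) * (X : ℝ) ^ (2 - δ) :=
          mul_le_mul_of_nonneg_right
            (Real.rpow_le_rpow_of_exponent_le (by norm_num) (by linarith)) (by positivity)
      _ = 9 * (X * (X : ℝ) ^ (1 - δ)) := by
          rw [show (2 : ℝ) - δ = 1 + (1 - δ) by ring, Real.rpow_add (by linarith), Real.rpow_one]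
          norm_num
  have h4 : (X : ℝ) * #E ≤ X * (9 * C * (X : ℝ) ^ (1 - δ)) := by
    calc (X : ℝ) * #E ≤ C * (#A : ℝ) ^ (2 - δ) := h2
      _ ≤ C * (9 * (X * (X : ℝ) ^ (1 - δ))) := mul_le_mul_of_nonneg_left h3 hC.le
      _ = _ := by ring
  exact le_of_mul_le_mul_left h4 (by linarith)

end PoolAlt
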