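import Pool.Agent.Work.MP_70e905_nt.Alt.Four
import Pool.Agent.Work.MP_70e905_nt.Alt.Pairs

/-!
# Alt.Repulsion : a gap between the differences of primes forces differences at smaller scales

At every scale `x` and for every `B ≤ x`: if some interval of length `C B` below `x` contains no
difference of two primes between `x` and `C x`, then among any `N` even numbers of `[0, B]` all but
`C N ^ (2 - δ)` pairs have a difference that is a difference of two primes between `x` and `C x`.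
-/

set_option autoImplicit false

namespace PoolAlt

open Finset PoolQ4 PoolPol

/-- `h` is no difference of two primes between `x` and `C x`. -/
def NoD (C x h : ℕ) : Prop :=
  ¬ ∃ p q : ℕ, p.Prime ∧ q.Prime ∧ x < q ∧ p ≤ C * x ∧ p = q + h

open scoped Classical in
theorem repulsion_core (H : ClusterPlus 3) : ∃ (C : ℕ) (K δ : ℝ), 0 < K ∧ 0 < δ ∧ δ ≤ 1 ∧
    ∀ x B n : ℕ, C ≤ x → 1 ≤ B → B ≤ x → n ≤ 2 * x →
    (∃ p q : ℕ, p.Prime ∧ q.Prime ∧ x < q ∧ p ≤ C * x ∧ q + n ≤ p + C * B ∧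
      p ≤ q + n + C * B) ∨
    ∀ S : Finset ℕ, (∀ s ∈ S, Even s ∧ s ≤ 2 * B) →
      (#((S ×ˢ S).filter (fun q => q.1 < q.2 ∧ NoD C x (q.2 - q.1))) : ℝ) ≤
        K * (#S : ℝ) ^ (2 - δ) := by
  classical
  obtain ⟨L, D₁, hL, HC⟩ := id H
  obtain ⟨D, hD⟩ : ∃ D, D = max D₁ (max (2 * L) 2) := ⟨_, rfl⟩
  have hDD₁ : D₁ ≤ D := by rw [hD]; exact le_max_left _ _
  have hD2L : 2 * L ≤ D := by rw [hD]; exact le_trans (le_max_left _ _) (le_max_right _ _)
  have hdvd : ∀ n m : ℕ, n ≤ m → primorial n ∣ primorial m := by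
    intro n m hnm
    unfold primorial
    exact Finset.prod_dvd_prod_of_subset _ _ _ (fun p hp => by
      rw [mem_filter, mem_range] at hp ⊢
      exact ⟨by omega, hp.2⟩)
  have hpdvd : ∀ p : ℕ, p.Prime → p ≤ D → p ∣ primorial D := by
    intro p hp hpD
    unfold primorial
    exact Finset.dvd_prod_of_mem (fun p => p) (mem_filter.2 ⟨mem_range.2 (by omega), hp⟩)
  obtain ⟨W, hWD⟩ : ∃ W, W = primorial D := ⟨_, rfl⟩
  have hW : 0 < W := by rw [hWD]; exact primorial_pos _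
  have h2W : 2 ∣ W := by rw [hWD]; exact hpdvd 2 Nat.prime_two (by omega)
  have h2LW : primorial (2 * L) ∣ W := by rw [hWD]; exact hdvd _ _ hD2L
  have hWL : 1 ≤ W * L := Nat.mul_pos hW hL
  have hWLr : (1 : ℝ) ≤ ((W * L : ℕ) : ℝ) := by exact_mod_cast hWL
  obtain ⟨X₀, E, hfour⟩ := four HC W 2 2 hW (by rw [hWD]; exact hdvd _ _ hDD₁)
    (fun p hp hpA => by rw [hWD]; exact hpdvd p hp (by omega))
  obtain ⟨K, hK, hkst⟩ := kst_graph (W * L) hWL
  obtain ⟨C, hC⟩ : ∃ C, C = X₀ + 2 * E + 20 := ⟨_, rfl⟩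
  refine ⟨C, K, 1 / ((W * L : ℕ) : ℝ), hK, by positivity, ?_, ?_⟩
  · rw [div_le_one (by linarith)]
    exact hWLr
  intro x B n hCx hB hBx hn
  by_cases hpq : ∃ p q : ℕ, p.Prime ∧ q.Prime ∧ x < q ∧ p ≤ C * x ∧ q + n ≤ p + C * B ∧
      p ≤ q + n + C * B
  · exact Or.inl hpq
  right
  intro S hS
  set R : ℕ → ℕ → Prop := fun a b => a ≠ b ∧ NoD C x (Nat.dist a b) with hR
  have hRsymm : ∀ a b, R a b → R b a := fun a b h => ⟨h.1.symm, by rw [Nat.dist_comm]; exact h.2⟩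
  have h1 := hkst S R (by
    intro U T hU hT hUc hTc
    by_contra hno
    push Not at hno
    obtain ⟨r₀, U', hU', hU'c, hUr⟩ := exists_class W L hW U hUc
    obtain ⟨r₁, T', hT', hT'c, hTr⟩ := exists_class W L hW T hTc
    have hRst : ∀ s ∈ U', ∀ t ∈ T', R s t := fun s hs t ht => hno s (hU' hs) t (hT' ht)
    obtain ⟨I, hI⟩ : ∃ I : Fin L → ℕ, I = fun a => ((U'.equivFinOfCardEq hU'c).symm a : ℕ) :=
      ⟨_, rfl⟩
    obtain ⟨J, hJ⟩ : ∃ J : Fin L → ℕ, J = fun a => ((T'.equivFinOfCardEq hT'c).symm a : ℕ) :=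
      ⟨_, rfl⟩
    have hIm : ∀ a, I a ∈ U' := fun a => by
      rw [hI]
      exact ((U'.equivFinOfCardEq hU'c).symm a).2
    have hJm : ∀ a, J a ∈ T' := fun a => by
      rw [hJ]
      exact ((T'.equivFinOfCardEq hT'c).symm a).2
    have hIi : Function.Injective I := by
      rw [hI]
      exact fun x y h => (U'.equivFinOfCardEq hU'c).symm.injective (Subtype.ext h)
    have hJi : Function.Injective J := by
      rw [hJ]
      exact fun x y h => (T'.equivFinOfCardEq hT'c).symm.injective (Subtype.ext h)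
    have hev : ∀ (X : Finset ℕ) (r : ℕ), X ⊆ S → X.Nonempty → (∀ s ∈ X, s % W = r) → Even r := by
      intro X r hX hne hr
      obtain ⟨s, hs⟩ := hne
      have h2 := (hS s (hX hs)).1
      rw [← hr s hs, Nat.even_iff]
      rw [Nat.even_iff] at h2
      rw [Nat.mod_mod_of_dvd _ h2W, h2]
    have hr₀ : Even r₀ := hev U' r₀ (hU'.trans hU) (card_pos.1 (by omega)) hUr
    have hr₁ : Even r₁ := hev T' r₁ (hT'.trans hT) (card_pos.1 (by omega)) hTr
    have hmod : ∀ s r, s % W = r → s ≡ r [MOD W] := by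
      intro s r h
      rw [← h]
      exact (Nat.mod_modEq s W).symm
    obtain ⟨h, hh⟩ : ∃ h : Fin 2 × Fin L → ℕ, h = fun s => if s.1 = 0 then I s.2 else J s.2 :=
      ⟨_, rfl⟩
    have hh0 : ∀ s : Fin 2 × Fin L, s.1 = 0 → h s = I s.2 := fun s hs => by rw [hh]; exact if_pos hs
    have hh1 : ∀ s : Fin 2 × Fin L, s.1 ≠ 0 → h s = J s.2 := fun s hs => by rw [hh]; exact if_neg hs
    have hinj : Function.Injective h := by
      rintro ⟨i, a⟩ ⟨j, b⟩ hab
      by_cases hi : i = 0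
      · by_cases hj : j = 0
        · rw [hh0 _ hi, hh0 _ hj] at hab
          have h2 : a = b := hIi hab
          rw [hi, hj, h2]
        · rw [hh0 _ hi, hh1 _ hj] at hab
          exact absurd hab (hRst _ (hIm a) _ (hJm b)).1
      · by_cases hj : j = 0
        · rw [hh1 _ hi, hh0 _ hj] at hab
          exact absurd hab.symm (hRst _ (hIm b) _ (hJm a)).1
        · rw [hh1 _ hi, hh1 _ hj] at hab
          have h2 : a = b := hJi hab
          have hi' : i = 1 := Fin.eq_one_of_ne_zero i hi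
          have hj' : j = 1 := Fin.eq_one_of_ne_zero j hj
          rw [hi', hj', h2]
    have hadm : Admissible (Finset.univ.image h) := by
      refine admissible_two' L r₀ r₁ hr₀ hr₁ _ ?_ ?_
      · refine card_image_le.trans ?_
        rw [card_univ, Fintype.card_prod, Fintype.card_fin, Fintype.card_fin]
      · intro y hy
        obtain ⟨⟨i, a⟩, _, rfl⟩ := mem_image.1 hy
        by_cases hi : i = 0
        · left
          rw [hh0 _ hi]
          exact (hmod _ _ (hUr _ (hIm a))).of_dvd h2LW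
        · right
          rw [hh1 _ hi]
          exact (hmod _ _ (hTr _ (hJm a))).of_dvd h2LW
    obtain ⟨v, hv⟩ := exists_coprime_shift hadm D
    have hcop : ∀ s, (v + h s).Coprime W := fun s => by
      rw [hWD]
      exact hv _ (Finset.mem_image_of_mem h (Finset.mem_univ s))
    have hhle : ∀ s, h s ≤ 2 * B := by
      rintro ⟨i, a⟩
      by_cases hi : i = 0
      · rw [hh0 _ hi]
        exact (hS _ (hU (hU' (hIm a)))).2
      · rw [hh1 _ hi]
        exact (hS _ (hT (hT' (hJm a)))).2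
    have hhB : ∀ s, h s ≤ 2 * x := fun s => (hhle s).trans (by omega)
    have hCB : (2 * E + 20) * B ≤ C * B := Nat.mul_le_mul_right _ (by omega)
    have hCB' : (2 * E + 20) * B = 2 * (E * B) + 20 * B := by ring
    have hEB : E ≤ E * B := Nat.le_mul_of_pos_right E (by omega)
    have hCxx : (2 * E + 20) * x ≤ C * x := Nat.mul_le_mul_right _ (by omega)
    have hCxx' : (2 * E + 20) * x = 2 * (E * x) + 20 * x := by ring
    have hEx : E ≤ E * x := Nat.le_mul_of_pos_right E (by omega)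
    rcases hfour x v h (by omega) (by omega) hinj hcop hhB 1 1 0 n le_rfl (by norm_num) le_rfl
      (by norm_num) (Nat.zero_le _) hn with
      ⟨z, s, s', i, j, hz1, hz2, hs, hs', hp1, hp2⟩ | ⟨y, i, j, hij, hy1, hy2, hp1, hp2⟩
    · have h3 := hhle i
      have h4 := hhle j
      refine hpq ⟨1 * z + n + s' + h j, 1 * z + 0 + s + h i, hp2, hp1, by omega, by omega, by omega,
        by omega⟩
    · have hone : ∀ i j : Fin 2 × Fin L, i.1 ≠ j.1 → h i < h j → (y + h i).Prime →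
          (y + h j).Prime → False := by
        intro i j hij hlt hp1 hp2
        have hRij : R (h i) (h j) := by
          by_cases hi : i.1 = 0
          · have hj : j.1 ≠ 0 := fun h0 => hij (by rw [hi, h0])
            rw [hh0 _ hi, hh1 _ hj]
            exact hRst _ (hIm _) _ (hJm _)
          · have hj : j.1 = 0 := by
              by_contra hj
              exact hij (by rw [Fin.eq_one_of_ne_zero _ hi, Fin.eq_one_of_ne_zero _ hj])
            rw [hh1 _ hi, hh0 _ hj]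
            exact hRsymm _ _ (hRst _ (hIm _) _ (hJm _))
        refine hRij.2 ⟨y + h j, y + h i, hp2, hp1, by omega, ?_, ?_⟩
        · have h4 := hhle j
          omega
        · rw [Nat.dist_eq_sub_of_le hlt.le]
          omega
      have hne : h i ≠ h j := fun h0 => hij (by rw [hinj h0])
      rcases lt_or_gt_of_ne hne with h2 | h2
      · exact hone i j hij h2 hp1 hp2
      · exact hone j i (Ne.symm hij) h2 hp2 hp1)
  refine le_trans ?_ h1
  have h2 : (S ×ˢ S).filter (fun q => q.1 < q.2 ∧ NoD C x (q.2 - q.1)) ⊆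
      (S ×ˢ S).filter (fun p => R p.1 p.2) := by
    intro p hp
    rw [mem_filter] at hp ⊢
    refine ⟨hp.1, hp.2.1.ne, ?_⟩
    rw [Nat.dist_eq_sub_of_le hp.2.1.le]
    exact hp.2.2
  exact_mod_cast card_le_card h2

/-- From sets to arithmetic progressions, inside `[0, B]`. -/
theorem progressions_le (B : ℕ) (P : ℕ → Prop) [DecidablePred P] (C δ : ℝ) (hC : 0 < C) (hδ0 : 0 < δ) (hδ : δ ≤ 1)
    (h : ∀ A : Finset ℕ, (∀ a ∈ A, Even a ∧ a ≤ 2 * B) →
      (#((A ×ˢ A).filter (fun p => p.1 < p.2 ∧ ¬ P (p.2 - p.1))) : ℝ) ≤ C * (#A : ℝ) ^ (2 - δ)) :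
    ∀ r d X : ℕ, Even r → Even d → 0 < r → 0 < d → r + X * d ≤ B →
      (#((range X).filter (fun j => ¬ P (r + j * d))) : ℝ) ≤ 9 * C * (X : ℝ) ^ (1 - δ) := by
  classical
  intro r d X hr hd hr0 hd0 hrB
  rcases Nat.eq_zero_or_pos X with rfl | hX
  · rw [range_zero, filter_empty, card_empty, Nat.cast_zero]
    positivity
  have hXr : (1 : ℝ) ≤ X := by exact_mod_cast hX
  set A : Finset ℕ := (range X).image (fun i => i * d) ∪ (range (2 * X)).image (fun i => r + i * d)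
    with hA
  have hAe : ∀ a ∈ A, Even a ∧ a ≤ 2 * B := by
    intro a ha
    rcases mem_union.1 ha with h1 | h1
    · obtain ⟨i, hi, rfl⟩ := mem_image.1 h1
      have h2 : i * d ≤ X * d := Nat.mul_le_mul_right _ (mem_range.1 hi).le
      exact ⟨hd.mul_left i, by omega⟩
    · obtain ⟨i, hi, rfl⟩ := mem_image.1 h1
      have h2 : i * d ≤ 2 * X * d := Nat.mul_le_mul_right _ (mem_range.1 hi).le
      have h3 : 2 * X * d = 2 * (X * d) := by ring
      exact ⟨hr.add (hd.mul_left i), by omega⟩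
  have hAc : #A ≤ 3 * X := by
    refine (card_union_le _ _).trans ?_
    have h1 := card_image_le (s := range X) (f := fun i => i * d)
    have h2 := card_image_le (s := range (2 * X)) (f := fun i => r + i * d)
    rw [card_range] at h1 h2
    omega
  set E : Finset ℕ := (range X).filter (fun j => ¬ P (r + j * d)) with hE
  have h1 : #(range X ×ˢ E) ≤ #((A ×ˢ A).filter (fun p => p.1 < p.2 ∧ ¬ P (p.2 - p.1))) := by
    refine card_le_card_of_injOn (fun q => (q.1 * d, r + (q.1 + q.2) * d)) ?_ ?_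
    · rintro ⟨i, j⟩ hq
      rw [mem_coe, mem_product] at hq
      simp only at hq
      obtain ⟨hi, hj⟩ := hq
      rw [hE, mem_filter, mem_range] at hj
      rw [mem_range] at hi
      rw [mem_coe, mem_filter, mem_product]
      simp only
      refine ⟨⟨?_, ?_⟩, ?_, ?_⟩
      · exact mem_union_left _ (mem_image.2 ⟨i, mem_range.2 hi, rfl⟩)
      · exact mem_union_right _ (mem_image.2 ⟨i + j, mem_range.2 (by omega), rfl⟩)
      · have : (i + j) * d = i * d + j * d := by ring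
        omega
      · have h2 : r + (i + j) * d - i * d = r + j * d := by
          have : (i + j) * d = i * d + j * d := by ring
          omega
        rw [h2]
        exact hj.2
    · rintro ⟨i, j⟩ _ ⟨i', j'⟩ _ hq
      simp only [Prod.mk.injEq] at hq
      obtain ⟨h3, h4⟩ := hq
      have h5 : i = i' := Nat.eq_of_mul_eq_mul_right hd0 h3
      subst h5
      have h6 : (i + j) * d = (i + j') * d := by omega
      have h7 := Nat.eq_of_mul_eq_mul_right hd0 h6
      have h8 : j = j' := by omega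
      rw [h8]
  rw [card_product, card_range] at h1
  have h2 : (X : ℝ) * #E ≤ C * (#A : ℝ) ^ (2 - δ) := by
    refine le_trans ?_ (h A hAe)
    exact_mod_cast h1
  have hAcr : (#A : ℝ) ≤ 3 * X := by exact_mod_cast hAc
  have h3 : (#A : ℝ) ^ (2 - δ) ≤ 9 * (X * (X : ℝ) ^ (1 - δ)) := by
    calc (#A : ℝ) ^ (2 - δ) ≤ (3 * X : ℝ) ^ (2 - δ) :=
          Real.rpow_le_rpow (Nat.cast_nonneg _) hAcr (by linarith)
      _ = (3 : ℝ) ^ (2 - δ) * (X : ℝ) ^ (2 - δ) :=
          Real.mul_rpow (by norm_num) (Nat.cast_nonneg _)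
      _ ≤ (3 : ℝ) ^ (2 : ℝ) * (X : ℝ) ^ (2 - δ) :=
          mul_le_mul_of_nonneg_right
            (Real.rpow_le_rpow_of_exponent_le (by norm_num) (by linarith)) (by positivity)
      _ = 9 * (X * (X : ℝ) ^ (1 - δ)) := by
          rw [show (2 : ℝ) - δ = 1 + (1 - δ) by ring, Real.rpow_add (by linarith), Real.rpow_one]
          norm_num
  have h4 : (X : ℝ) * #E ≤ X * (9 * C * (X : ℝ) ^ (1 - δ)) := by
    calc (X : ℝ) * #E ≤ C * (#A : ℝ) ^ (2 - δ) := h2
      _ ≤ C * (9 * (X * (X : ℝ) ^ (1 - δ))) := mul_le_mul_of_nonneg_left h3 hC.le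
      _ = _ := by ring
  exact le_of_mul_le_mul_left h4 (by linarith)


theorem repulsion (H : ClusterPlus 3) : ∃ (C : ℕ) (δ : ℝ), 0 < δ ∧ ∀ x B : ℕ, 1 ≤ B → B ≤ x →
    (∀ n : ℕ, n ≤ x → ∃ p q : ℕ, p.Prime ∧ q.Prime ∧ x < q ∧ p ≤ C * x ∧ q + n < p ∧
      p ≤ q + n + C * B) ∨
    ((∀ S : Finset ℕ, (∀ s ∈ S, Even s ∧ s ≤ B) →
        (({s : ℕ × ℕ | s.1 ∈ S ∧ s.2 ∈ S ∧ s.1 < s.2 ∧
          ¬ ∃ p q : ℕ, p.Prime ∧ q.Prime ∧ x < q ∧ p ≤ C * x ∧ p = q + (s.2 - s.1)}.ncard : ℕ) : ℝ) ≤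
            C * (S.card : ℝ) ^ (2 - δ)) ∧
      (∀ r d X : ℕ, Even r → Even d → 0 < r → 0 < d → r + X * d ≤ B →
        (({j : ℕ | j < X ∧
          ¬ ∃ p q : ℕ, p.Prime ∧ q.Prime ∧ x < q ∧ p ≤ C * x ∧ p = q + (r + j * d)}.ncard : ℕ) : ℝ) ≤
            C * (X : ℝ) ^ (1 - δ))) := by
  classical
  obtain ⟨C₀, K, δ, hK, hδ0, hδ1, hcore⟩ := repulsion_core H
  obtain ⟨Q, hQ⟩ := exists_nat_ge (9 * K)
  obtain ⟨C, hC⟩ : ∃ C, C = 6 * C₀ + 7 + Q := ⟨_, rfl⟩
  have hKC : 9 * K ≤ C := hQ.trans (by exact_mod_cast (by omega : Q ≤ C))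
  refine ⟨C, δ, hδ0, fun x B hB hBx => ?_⟩
  have hCB : (6 * C₀ + 7) * B ≤ C * B := Nat.mul_le_mul_right _ (by omega)
  have hCB' : (6 * C₀ + 7) * B = 6 * (C₀ * B) + 7 * B := by ring
  have hCx : (C₀ + 7) * x ≤ C * x := Nat.mul_le_mul_right _ (by omega)
  have hCx' : (C₀ + 7) * x = C₀ * x + 7 * x := by ring
  have hC₀B : C₀ ≤ C₀ * B := Nat.le_mul_of_pos_right C₀ (by omega)
  have hx1 : 1 ≤ x := by omega
  -- the trivial case
  have htriv : x ≤ C₀ * B → ∀ n : ℕ, n ≤ x → ∃ p q : ℕ, p.Prime ∧ q.Prime ∧ x < q ∧ p ≤ C * x ∧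
      q + n < p ∧ p ≤ q + n + C * B := by
    intro hxC n hn
    obtain ⟨q, hq, hq1, hq2⟩ := Nat.exists_prime_lt_and_le_two_mul x (by omega)
    obtain ⟨p, hp, hp1, hp2⟩ := Nat.exists_prime_lt_and_le_two_mul (q + n) (by omega)
    exact ⟨p, q, hp, hq, hq1, by omega, hp1, by omega⟩
  rcases Nat.le_or_le x (C₀ * B) with hxC | hxC
  · exact Or.inl (htriv hxC)
  by_cases hall : ∀ n : ℕ, n ≤ x → ∃ p q : ℕ, p.Prime ∧ q.Prime ∧ x < q ∧ p ≤ C * x ∧
      q + n < p ∧ p ≤ q + n + C * B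
  · exact Or.inl hall
  rcases Nat.lt_or_ge x (C₀ * B + 1) with hxC' | hxC'
  · exact absurd (htriv (by omega)) hall
  right
  push Not at hall
  obtain ⟨n, hn, hno⟩ := hall
  have hsets : ∀ S : Finset ℕ, (∀ s ∈ S, Even s ∧ s ≤ 2 * B) →
      (#((S ×ˢ S).filter (fun q => q.1 < q.2 ∧ NoD C₀ x (q.2 - q.1))) : ℝ) ≤
        K * (#S : ℝ) ^ (2 - δ) := by
    rcases hcore x B (n + C₀ * B + 1) (by omega) hB hBx (by omega) with
      ⟨p, q, hp, hq, h1, h2, h3, h4⟩ | h
    · exfalso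
      have := hno p q hp hq h1 (by omega) (by omega)
      omega
    · exact h
  have hNoD : ∀ h : ℕ, (¬ ∃ p q : ℕ, p.Prime ∧ q.Prime ∧ x < q ∧ p ≤ C * x ∧ p = q + h) →
      NoD C₀ x h := by
    rintro h h1 ⟨p, q, hp, hq, h2, h3, h4⟩
    exact h1 ⟨p, q, hp, hq, h2, by omega, h4⟩
  refine ⟨fun S hS => ?_, fun r d X hr hd hr0 hd0 hrB => ?_⟩
  · have h1 := hsets S (fun s hs => ⟨(hS s hs).1, by have := (hS s hs).2; omega⟩)
    have h2 : ({s : ℕ × ℕ | s.1 ∈ S ∧ s.2 ∈ S ∧ s.1 < s.2 ∧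
          ¬ ∃ p q : ℕ, p.Prime ∧ q.Prime ∧ x < q ∧ p ≤ C * x ∧ p = q + (s.2 - s.1)}.ncard : ℕ) ≤
        #((S ×ˢ S).filter (fun q => q.1 < q.2 ∧ NoD C₀ x (q.2 - q.1))) := by
      rw [← Set.ncard_coe_finset]
      refine Set.ncard_le_ncard ?_ (Finset.finite_toSet _)
      rintro s ⟨h3, h4, h5, h6⟩
      rw [Finset.mem_coe, mem_filter, mem_product]
      exact ⟨⟨h3, h4⟩, h5, hNoD _ h6⟩
    have h3 : (0 : ℝ) ≤ (#S : ℝ) ^ (2 - δ) := by positivity
    calc (({s : ℕ × ℕ | s.1 ∈ S ∧ s.2 ∈ S ∧ s.1 < s.2 ∧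
          ¬ ∃ p q : ℕ, p.Prime ∧ q.Prime ∧ x < q ∧ p ≤ C * x ∧ p = q + (s.2 - s.1)}.ncard : ℕ) : ℝ)
        ≤ (#((S ×ˢ S).filter (fun q => q.1 < q.2 ∧ NoD C₀ x (q.2 - q.1))) : ℝ) := by
          exact_mod_cast h2
      _ ≤ K * (#S : ℝ) ^ (2 - δ) := h1
      _ ≤ C * (#S : ℝ) ^ (2 - δ) := mul_le_mul_of_nonneg_right (by linarith) h3
  · have h1 := progressions_le B (NoD C₀ x · → False) K δ hK hδ0 hδ1 (fun A hA => by
      refine le_trans ?_ (hsets A hA)
      have : (A ×ˢ A).filter (fun p => p.1 < p.2 ∧ ¬ (NoD C₀ x (p.2 - p.1) → False)) =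
          (A ×ˢ A).filter (fun q => q.1 < q.2 ∧ NoD C₀ x (q.2 - q.1)) := by
        refine filter_congr fun p _ => ?_
        exact and_congr_right fun _ => not_not
      rw [this]) r d X hr hd hr0 hd0 hrB
    have h2 : ({j : ℕ | j < X ∧
          ¬ ∃ p q : ℕ, p.Prime ∧ q.Prime ∧ x < q ∧ p ≤ C * x ∧ p = q + (r + j * d)}.ncard : ℕ) ≤
        #((range X).filter (fun j => ¬ (NoD C₀ x (r + j * d) → False))) := by
      rw [← Set.ncard_coe_finset]
      refine Set.ncard_le_ncard ?_ (Finset.finite_toSet _)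
      rintro j ⟨h3, h4⟩
      rw [Finset.mem_coe, mem_filter, mem_range]
      exact ⟨h3, fun h5 => h5 (hNoD _ h4)⟩
    have h3 : (0 : ℝ) ≤ (X : ℝ) ^ (1 - δ) := by positivity
    calc (({j : ℕ | j < X ∧
          ¬ ∃ p q : ℕ, p.Prime ∧ q.Prime ∧ x < q ∧ p ≤ C * x ∧ p = q + (r + j * d)}.ncard : ℕ) : ℝ)
        ≤ (#((range X).filter (fun j => ¬ (NoD C₀ x (r + j * d) → False))) : ℝ) := by
          exact_mod_cast h2
      _ ≤ 9 * K * (X : ℝ) ^ (1 - δ) := h1
      _ ≤ C * (X : ℝ) ^ (1 - δ) := mul_le_mul_of_nonneg_right (by linarith) h3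

end PoolAlt
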