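import Pool.Agent.Work.MP_70e905_nt.Pol.Step1

/-!
# Alt.Setup : auxiliary statements for the alternative theorem

* `w_setup` : the class modulo `W` in which only the integers `y + h s` can be prime.
* `closest` : a closest pair of primes in different clusters.
* `not_pol_bound` : a bound beyond which no difference between the two clusters occurs.
* `exists_shift` : a shift avoiding proportional forms.
-/

set_option autoImplicit false

namespace PoolAlt

open Finset PoolQ4 PoolPol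

theorem w_setup {ι : Type} [Fintype ι] (h : ι → ℕ) (hadm : Admissible (Finset.univ.image h))
    (D : ℕ) : ∃ W v B M : ℕ, 0 < W ∧ primorial D ∣ W ∧ (∀ s, h s ≤ M) ∧
      (∀ s, (v + h s).Coprime W) ∧
      ∀ y g : ℕ, y ≡ v [MOD W] → B < y → g ≤ M → (y + g).Prime → ∃ s, h s = g := by
  classical
  set HH : Finset ℕ := Finset.univ.image h with hHH
  set M : ℕ := HH.sup id with hM
  have hhM : ∀ s, h s ≤ M := fun s =>
    Finset.le_sup (f := id) (Finset.mem_image_of_mem h (Finset.mem_univ s))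
  obtain ⟨f, hfp, hfB, hfinj⟩ := exists_primes (D + M)
  obtain ⟨v₁, hv₁⟩ := exists_coprime_shift hadm D
  set G : Finset ℕ := (Finset.range (M + 1)).filter fun g => g ∉ HH with hG
  set W₁ : ℕ := primorial D with hW₁
  set W : ℕ := W₁ * ∏ g ∈ G, f g with hW
  have hW₁pos : 0 < W₁ := by
    rw [hW₁]
    unfold primorial
    exact Finset.prod_pos fun p hp => (mem_filter.1 hp).2.pos
  have hWpos : 0 < W := Nat.mul_pos hW₁pos (Finset.prod_pos fun g _ => (hfp g).pos)
  have hcopW₁ : ∀ g, (f g).Coprime W₁ := by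
    intro g
    rw [hW₁]
    unfold primorial
    refine Nat.Coprime.prod_right fun p hp => ?_
    rw [Nat.coprime_primes (hfp g) (mem_filter.1 hp).2]
    have h1 := hfB g
    have h2 := mem_range.1 (mem_filter.1 hp).1
    omega
  obtain ⟨v₂, hv₂⟩ := Nat.chineseRemainderOfFinset (fun g => (f g - 1) * g) f G
    (fun g _ => (hfp g).ne_zero)
    (by
      intro g _ g' _ hgg
      exact (Nat.coprime_primes (hfp g) (hfp g')).2 fun h => hgg (hfinj h))
  have hcop2 : W₁.Coprime (∏ g ∈ G, f g) := Nat.Coprime.prod_right fun g _ => (hcopW₁ g).symm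
  obtain ⟨v, hvv₁, hvv₂⟩ := Nat.chineseRemainder hcop2 v₁ v₂
  have hvg : ∀ g ∈ G, f g ∣ v + g := by
    intro g hg
    have h1 : v ≡ v₂ [MOD f g] := hvv₂.of_dvd (Finset.dvd_prod_of_mem f hg)
    have h2 : v + g ≡ (f g - 1) * g + g [MOD f g] := (h1.trans (hv₂ g hg)).add_right g
    have h3 : (f g - 1) * g + g = f g * g := by
      have h4 := (hfp g).one_lt
      calc (f g - 1) * g + g = (f g - 1 + 1) * g := by ring
        _ = f g * g := by rw [Nat.sub_add_cancel h4.le]
    rw [h3] at h2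
    exact (h2.dvd_iff dvd_rfl).2 (Dvd.intro _ rfl)
  have hcopall : ∀ s, (v + h s).Coprime W := by
    intro s
    rw [hW]
    refine Nat.Coprime.mul_right ?_ (Nat.Coprime.prod_right fun g hg => ?_)
    · have h1 := hv₁ (h s) (Finset.mem_image_of_mem h (Finset.mem_univ s))
      have h2 : v + h s ≡ v₁ + h s [MOD W₁] := hvv₁.add_right _
      rw [Nat.Coprime, h2.gcd_eq]
      exact h1
    · refine Nat.Coprime.symm ((Nat.Prime.coprime_iff_not_dvd (hfp g)).2 fun hd => ?_)
      have h1 := hvg g hg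
      have hgM : g ≤ M := by
        have := mem_range.1 (mem_filter.1 hg).1
        omega
      have hgH : g ∉ HH := (mem_filter.1 hg).2
      have hne : h s ≠ g := fun h2 => hgH (h2 ▸ Finset.mem_image_of_mem h (Finset.mem_univ s))
      have hB := hfB g
      rcases lt_or_gt_of_ne hne with hlt | hgt
      · have h3 : f g ∣ (v + g) - (v + h s) := Nat.dvd_sub h1 hd
        have h4 : (v + g) - (v + h s) = g - h s := by omega
        rw [h4] at h3
        have h5 := Nat.le_of_dvd (by omega) h3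
        omega
      · have h3 : f g ∣ (v + h s) - (v + g) := Nat.dvd_sub hd h1
        have h4 : (v + h s) - (v + g) = h s - g := by omega
        rw [h4] at h3
        have h5 := Nat.le_of_dvd (by omega) h3
        have h6 := hhM s
        omega
  refine ⟨W, v, ∏ g ∈ G, f g, M, hWpos, Dvd.intro _ rfl, hhM, hcopall, ?_⟩
  intro y g hy hBy hg hgp
  by_contra hgH
  have hgH' : g ∉ HH := by
    intro h1
    obtain ⟨s, -, hs⟩ := Finset.mem_image.1 h1
    exact hgH ⟨s, hs⟩
  have hgG : g ∈ G := mem_filter.2 ⟨mem_range.2 (by omega), hgH'⟩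
  have h1 : y + g ≡ v + g [MOD f g] :=
    ((hy.of_dvd ((Finset.dvd_prod_of_mem f hgG).trans (Dvd.intro_left _ rfl))).add_right g)
  have h2 : f g ∣ y + g := (h1.dvd_iff dvd_rfl).2 (hvg g hgG)
  have h3 : f g = y + g := ((Nat.dvd_prime hgp).1 h2).resolve_left (hfp g).one_lt.ne'
  have h4 : f g ≤ ∏ g ∈ G, f g :=
    Nat.le_of_dvd (Finset.prod_pos fun g _ => (hfp g).pos) (Finset.dvd_prod_of_mem f hgG)
  omega

theorem closest {K L M y : ℕ} (h : Fin K × Fin L → ℕ) (hinj : Function.Injective h)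
    (hM : ∀ s, h s ≤ M) (honly : ∀ g : ℕ, g ≤ M → (y + g).Prime → ∃ s, h s = g)
    (i j : Fin K × Fin L) (hij : i.1 ≠ j.1) (hpi : (y + h i).Prime) (hpj : (y + h j).Prime) :
    ∃ q r : Fin K × Fin L, q.1 ≠ r.1 ∧ h q < h r ∧ (y + h q).Prime ∧ (y + h r).Prime ∧
      ∀ k : ℕ, 0 < k → k < h r - h q → ¬ (y + h q + k).Prime := by
  classical
  set S : Finset ((Fin K × Fin L) × (Fin K × Fin L)) :=
    Finset.univ.filter fun q => q.1.1 ≠ q.2.1 ∧ (y + h q.1).Prime ∧ (y + h q.2).Prime ∧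
      h q.1 < h q.2 with hS
  have hSne : S.Nonempty := by
    have hne : h i ≠ h j := fun h1 => hij (by rw [hinj h1])
    rcases lt_or_gt_of_ne hne with h1 | h1
    · exact ⟨(i, j), mem_filter.2 ⟨Finset.mem_univ _, hij, hpi, hpj, h1⟩⟩
    · exact ⟨(j, i), mem_filter.2 ⟨Finset.mem_univ _, Ne.symm hij, hpj, hpi, h1⟩⟩
  obtain ⟨q, hqS, hqmin⟩ := Finset.exists_min_image S (fun q => h q.2 - h q.1) hSne
  obtain ⟨-, hq1, hq2, hq3, hq4⟩ := mem_filter.1 hqS
  refine ⟨q.1, q.2, hq1, hq4, hq2, hq3, ?_⟩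
  intro k hk1 hk2 hkp
  obtain ⟨u, hu⟩ := honly (h q.1 + k) (by have := hM q.2; omega) (by rwa [← add_assoc])
  by_cases hu1 : u.1 = q.1.1
  · have h2 : (u, q.2) ∈ S := mem_filter.2 ⟨Finset.mem_univ _, by
      show u.1 ≠ q.2.1
      rw [hu1]; exact hq1, by
      show (y + h u).Prime
      rw [hu, ← add_assoc]; exact hkp, hq3, by
      show h u < h q.2
      omega⟩
    have h3 := hqmin _ h2
    simp only at h3
    omega
  · have h2 : (q.1, u) ∈ S := mem_filter.2 ⟨Finset.mem_univ _, fun h3 => hu1 h3.symm, hq2, by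
      show (y + h u).Prime
      rw [hu, ← add_assoc]; exact hkp, by
      show h q.1 < h u
      omega⟩
    have h3 := hqmin _ h2
    simp only at h3
    omega

theorem not_pol_bound {L : ℕ} (h : Fin 2 × Fin L → ℕ)
    (hno : ∀ s t : Fin 2 × Fin L, s.1 < t.1 → ¬ Pol (Nat.dist (h s) (h t))) :
    ∃ N : ℕ, ∀ q r : Fin 2 × Fin L, q.1 ≠ r.1 → h q < h r → ∀ p : ℕ, N < p → p.Prime →
      (p + (h r - h q)).Prime → ∃ k : ℕ, 0 < k ∧ k < h r - h q ∧ (p + k).Prime := by
  classical
  have hbd : ∀ s t : Fin 2 × Fin L, ∃ N : ℕ, s.1 < t.1 →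
      ∀ p : ℕ, N < p → p.Prime → (p + Nat.dist (h s) (h t)).Prime → 0 < Nat.dist (h s) (h t) →
        ∃ k : ℕ, 0 < k ∧ k < Nat.dist (h s) (h t) ∧ (p + k).Prime := by
    intro s t
    by_cases hst : s.1 < t.1
    · have h1 := hno s t hst
      unfold Pol at h1
      push Not at h1
      obtain ⟨N, hN⟩ := h1
      exact ⟨N, fun _ p hp h2 h3 h4 => hN p hp h2 h3 h4⟩
    · exact ⟨0, fun h1 => absurd h1 hst⟩
  choose N hN using hbd
  refine ⟨∑ s : Fin 2 × Fin L, ∑ t : Fin 2 × Fin L, N s t, ?_⟩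
  have hNx : ∀ s t, N s t ≤ ∑ s : Fin 2 × Fin L, ∑ t : Fin 2 × Fin L, N s t := by
    intro s t
    have h1 : N s t ≤ ∑ t : Fin 2 × Fin L, N s t :=
      Finset.single_le_sum (f := fun t => N s t) (fun _ _ => Nat.zero_le _) (Finset.mem_univ t)
    have h2 : ∑ t : Fin 2 × Fin L, N s t ≤
        ∑ s : Fin 2 × Fin L, ∑ t : Fin 2 × Fin L, N s t :=
      Finset.single_le_sum (f := fun s => ∑ t : Fin 2 × Fin L, N s t)
        (fun _ _ => Nat.zero_le _) (Finset.mem_univ s)
    omega
  intro q r hqr hlt p hp hpp hpr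
  rcases lt_or_gt_of_ne hqr with h1 | h1
  · have hd : Nat.dist (h q) (h r) = h r - h q := Nat.dist_eq_sub_of_le hlt.le
    obtain ⟨k, hk1, hk2, hk3⟩ := hN q r h1 p (lt_of_le_of_lt (hNx _ _) hp) hpp
      (by rw [hd]; exact hpr) (by rw [hd]; omega)
    rw [hd] at hk2
    exact ⟨k, hk1, hk2, hk3⟩
  · have hd : Nat.dist (h r) (h q) = h r - h q := by
      rw [Nat.dist_comm]
      exact Nat.dist_eq_sub_of_le hlt.le
    obtain ⟨k, hk1, hk2, hk3⟩ := hN r q h1 p (lt_of_le_of_lt (hNx _ _) hp) hpp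
      (by rw [hd]; exact hpr) (by rw [hd]; omega)
    rw [hd] at hk2
    exact ⟨k, hk1, hk2, hk3⟩

/-- A shift `W t`, `t` at most the square of the number of the forms, for which no two forms are
proportional. -/
theorem exists_shift {ι : Type} [Fintype ι] (h : ι → ℕ) (W a a' B₁ B₂ : ℕ) (hW : 0 < W)
    (ha : 1 ≤ a) : ∃ t : ℕ, t ≤ Fintype.card ι ^ 2 ∧
      ∀ i j : ι, a * (B₂ + W * t + h j) ≠ a' * (B₁ + h i) := by
  classical
  by_contra hno
  push Not at hno
  have hex : ∀ t : ℕ, ∃ q : ι × ι, t ≤ Fintype.card ι ^ 2 →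
      a * (B₂ + W * t + h q.2) = a' * (B₁ + h q.1) := by
    intro t
    by_cases ht : t ≤ Fintype.card ι ^ 2
    · obtain ⟨i, j, hij⟩ := hno t ht
      exact ⟨(i, j), fun _ => hij⟩
    · obtain ⟨i, j, -⟩ := hno 0 (Nat.zero_le _)
      exact ⟨(i, j), fun h1 => absurd h1 ht⟩
  choose g hg using hex
  have hcard : (Finset.univ : Finset (ι × ι)).card < (Finset.range (Fintype.card ι ^ 2 + 1)).card := by
    rw [Finset.card_univ, Fintype.card_prod, Finset.card_range]
    have : Fintype.card ι * Fintype.card ι = Fintype.card ι ^ 2 := by ring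
    omega
  obtain ⟨t, ht, t', ht', htt, heq⟩ := Finset.exists_ne_map_eq_of_card_lt_of_maps_to hcard
    (f := g) (fun t _ => Finset.mem_univ _)
  have h1 := hg t (by have := mem_range.1 ht; omega)
  have h2 := hg t' (by have := mem_range.1 ht'; omega)
  rw [← heq] at h2
  have h3 : a * (B₂ + W * t + h (g t).2) = a * (B₂ + W * t' + h (g t).2) := by rw [h1, h2]
  have h4 := Nat.eq_of_mul_eq_mul_left (by omega) h3
  have h5 : W * t = W * t' := by omega
  exact htt (Nat.eq_of_mul_eq_mul_left hW h5)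

end PoolAlt
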