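import Pool.Agent.Work.MP_70e905_nt.Alt.Repulsion

/-!
# Alt.Threshold : at every scale the repulsion theorem gives one length with both properties
-/

set_option autoImplicit false

namespace PoolAlt

open Finset PoolQ4 PoolPol

/-- the case `B = x` of the first alternative, by Bertrand's postulate -/
private lemma bertrand_case (x : ℕ) (hx : 1 ≤ x) (n : ℕ) (hn : n ≤ x) :
    ∃ p q : ℕ, p.Prime ∧ q.Prime ∧ x < q ∧ p ≤ 6 * x ∧ q + n < p ∧ p ≤ q + n + 6 * x := by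
  obtain ⟨q, hq, hxq, hq2⟩ := Nat.exists_prime_lt_and_le_two_mul x (by omega)
  obtain ⟨p, hp, hqp, hp2⟩ := Nat.exists_prime_lt_and_le_two_mul (q + n) (by omega)
  exact ⟨p, q, hp, hq, hxq, by omega, hqp, by omega⟩

theorem threshold_of {C₀ : ℕ} {δ : ℝ}
    (H : ∀ x B : ℕ, 1 ≤ B → B ≤ x →
      (∀ n : ℕ, n ≤ x → ∃ p q : ℕ, p.Prime ∧ q.Prime ∧ x < q ∧ p ≤ C₀ * x ∧ q + n < p ∧
        p ≤ q + n + C₀ * B) ∨
      ((∀ S : Finset ℕ, (∀ s ∈ S, Even s ∧ s ≤ B) →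
          (({s : ℕ × ℕ | s.1 ∈ S ∧ s.2 ∈ S ∧ s.1 < s.2 ∧
            ¬ ∃ p q : ℕ, p.Prime ∧ q.Prime ∧ x < q ∧ p ≤ C₀ * x ∧
              p = q + (s.2 - s.1)}.ncard : ℕ) : ℝ) ≤ C₀ * (S.card : ℝ) ^ (2 - δ)) ∧
        (∀ r d X : ℕ, Even r → Even d → 0 < r → 0 < d → r + X * d ≤ B →
          (({j : ℕ | j < X ∧
            ¬ ∃ p q : ℕ, p.Prime ∧ q.Prime ∧ x < q ∧ p ≤ C₀ * x ∧
              p = q + (r + j * d)}.ncard : ℕ) : ℝ) ≤ C₀ * (X : ℝ) ^ (1 - δ)))) :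
    ∃ C : ℕ, ∀ x : ℕ, 1 ≤ x → ∃ B : ℕ, B < x ∧
      (∀ n : ℕ, n ≤ x → ∃ p q : ℕ, p.Prime ∧ q.Prime ∧ x < q ∧ p ≤ C * x ∧ q + n < p ∧
        p ≤ q + n + C * (B + 1)) ∧
      (∀ S : Finset ℕ, (∀ s ∈ S, Even s ∧ s ≤ B) →
          (({s : ℕ × ℕ | s.1 ∈ S ∧ s.2 ∈ S ∧ s.1 < s.2 ∧
            ¬ ∃ p q : ℕ, p.Prime ∧ q.Prime ∧ x < q ∧ p ≤ C * x ∧
              p = q + (s.2 - s.1)}.ncard : ℕ) : ℝ) ≤ C * (S.card : ℝ) ^ (2 - δ)) ∧
      (∀ r d X : ℕ, Even r → Even d → 0 < r → 0 < d → r + X * d ≤ B →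
          (({j : ℕ | j < X ∧
            ¬ ∃ p q : ℕ, p.Prime ∧ q.Prime ∧ x < q ∧ p ≤ C * x ∧
              p = q + (r + j * d)}.ncard : ℕ) : ℝ) ≤ C * (X : ℝ) ^ (1 - δ)) := by
  classical
  obtain ⟨C, hC⟩ : ∃ C, C = max C₀ 6 := ⟨_, rfl⟩
  have hC0 : C₀ ≤ C := by rw [hC]; exact le_max_left _ _
  have hC6 : 6 ≤ C := by rw [hC]; exact le_max_right _ _
  have hC0r : (C₀ : ℝ) ≤ (C : ℝ) := by exact_mod_cast hC0
  refine ⟨C, fun x hx => ?_⟩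
  have hex : ∃ B : ℕ, 1 ≤ B ∧ B ≤ x ∧ ∀ n : ℕ, n ≤ x → ∃ p q : ℕ, p.Prime ∧ q.Prime ∧ x < q ∧
      p ≤ C * x ∧ q + n < p ∧ p ≤ q + n + C * B := by
    refine ⟨x, hx, le_rfl, fun n hn => ?_⟩
    obtain ⟨p, q, hp, hq, h1, h2, h3, h4⟩ := bertrand_case x hx n hn
    have h5 : 6 * x ≤ C * x := Nat.mul_le_mul_right x hC6
    exact ⟨p, q, hp, hq, h1, h2.trans h5, h3, h4.trans (by omega)⟩
  obtain ⟨hB1, hBx, hB⟩ := Nat.find_spec hex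
  obtain ⟨B', hB'⟩ : ∃ B', Nat.find hex = B' + 1 := ⟨Nat.find hex - 1, by omega⟩
  rw [hB'] at hB hBx
  refine ⟨B', by omega, hB, ?_⟩
  rcases Nat.eq_zero_or_pos B' with h0 | h0
  · subst h0
    constructor
    · intro S hS
      have hempty : {s : ℕ × ℕ | s.1 ∈ S ∧ s.2 ∈ S ∧ s.1 < s.2 ∧
            ¬ ∃ p q : ℕ, p.Prime ∧ q.Prime ∧ x < q ∧ p ≤ C * x ∧
              p = q + (s.2 - s.1)} = ∅ := by
        rw [Set.eq_empty_iff_forall_notMem]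
        rintro ⟨a, b⟩ ⟨ha, hb, hab, -⟩
        have := (hS _ hb).2
        simp only at this hab
        omega
      rw [hempty, Set.ncard_empty]
      push_cast
      positivity
    · intro r d X _ _ hr _ hrX
      exact absurd hrX (by omega)
  · have hnot := Nat.find_min hex (m := B') (by omega)
    have h1 : ¬ ∀ n : ℕ, n ≤ x → ∃ p q : ℕ, p.Prime ∧ q.Prime ∧ x < q ∧ p ≤ C₀ * x ∧ q + n < p ∧
        p ≤ q + n + C₀ * B' := by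
      intro h
      apply hnot
      refine ⟨h0, by omega, fun n hn => ?_⟩
      obtain ⟨p, q, hp, hq, h1, h2, h3, h4⟩ := h n hn
      exact ⟨p, q, hp, hq, h1, h2.trans (Nat.mul_le_mul_right x hC0), h3,
        h4.trans (Nat.add_le_add_left (Nat.mul_le_mul_right B' hC0) _)⟩
    obtain ⟨h2, h3⟩ := (H x B' h0 (by omega)).resolve_left h1
    constructor
    · intro S hS
      refine le_trans ?_ ((h2 S hS).trans (mul_le_mul_of_nonneg_right hC0r (by positivity)))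
      have hfin : {s : ℕ × ℕ | s.1 ∈ S ∧ s.2 ∈ S ∧ s.1 < s.2 ∧
            ¬ ∃ p q : ℕ, p.Prime ∧ q.Prime ∧ x < q ∧ p ≤ C₀ * x ∧
              p = q + (s.2 - s.1)}.Finite :=
        ((S ×ˢ S).finite_toSet).subset (by
          rintro ⟨a, b⟩ ⟨ha, hb, -⟩
          simp [ha, hb])
      refine Nat.cast_le.2 (Set.ncard_le_ncard ?_ hfin)
      rintro ⟨a, b⟩ ⟨ha, hb, hab, hn⟩
      refine ⟨ha, hb, hab, ?_⟩
      rintro ⟨p, q, hp, hq, e1, e2, e3⟩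
      exact hn ⟨p, q, hp, hq, e1, e2.trans (Nat.mul_le_mul_right x hC0), e3⟩
    · intro r d X hr hd hr0 hd0 hrX
      refine le_trans ?_ ((h3 r d X hr hd hr0 hd0 hrX).trans
        (mul_le_mul_of_nonneg_right hC0r (by positivity)))
      have hfin : {j : ℕ | j < X ∧
            ¬ ∃ p q : ℕ, p.Prime ∧ q.Prime ∧ x < q ∧ p ≤ C₀ * x ∧
              p = q + (r + j * d)}.Finite :=
        (Set.finite_lt_nat X).subset fun j hj => hj.1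
      refine Nat.cast_le.2 (Set.ncard_le_ncard ?_ hfin)
      rintro j ⟨hj, hn⟩
      refine ⟨hj, ?_⟩
      rintro ⟨p, q, hp, hq, e1, e2, e3⟩
      exact hn ⟨p, q, hp, hq, e1, e2.trans (Nat.mul_le_mul_right x hC0), e3⟩

end PoolAlt
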